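import Pool.Agent.Lib.MP_5e7226_co.WL.Defs

/-!
# Task D: bipolar theorem and opposite points of the polar

PROOFS. `mem_of_pol`: if `z ∉ K`, `geometric_hahn_banach_closed_point` (or compact) gives `g₀`, `u` with `⟪g₀, x⟫ < u < ⟪g₀, z⟫` for
`x ∈ K` (write the functional as `⟪g₀, ·⟫` with `InnerProductSpace.toDual`); `0 ∈ K` gives `u > 0`; then `g = u⁻¹ • g₀ ∈ pol K` and
`⟪g, z⟫ > 1`.
`opp_of_functional`: write `f = ⟪y, ·⟫`. `M = f a`, `m = f b`. `0 ∈ interior (pol K)` (`pol_interior`), and `f ≠ 0`, so `m < 0 < M` (take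
small multiples of a vector `v` with `f v ≠ 0`). `z = M⁻¹ • y ∈ K` by `mem_of_pol` (`⟪g, z⟫ = f g / M ≤ 1`), `c = M / (-m)`,
`-(c • z) = m⁻¹ • y ∈ K` by `mem_of_pol` (`⟪g, m⁻¹ • y⟫ = f g / m ≤ 1`, as `f g ≥ m`, `m < 0`); `⟪a, z⟫ = 1`, `⟪b, -(c • z)⟫ = 1`.
-/

set_option autoImplicit false

open Set Filter Topology MeasureTheory
open scoped InnerProductSpace Classical

namespace Pool.Agent.Lib.MP_5e7226_co.WL

variable {E : Type*} [NormedAddCommGroup E] [InnerProductSpace ℝ E] [FiniteDimensional ℝ E]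

theorem mem_of_pol {K : Set E} (hK : IsCompact K) (hconv : Convex ℝ K) (h0 : (0 : E) ∈ interior K)
    {z : E} (hz : ∀ g ∈ pol K, ⟪g, z⟫_ℝ ≤ 1) : z ∈ K := by
  by_contra hzK
  obtain ⟨f, u, hf, hu⟩ := geometric_hahn_banach_closed_point hconv hK.isClosed hzK
  have hu0 : 0 < u := by simpa using hf 0 (interior_subset h0)
  have hg₀ : ∀ x, ⟪(InnerProductSpace.toDual ℝ E).symm f, x⟫_ℝ = f x :=
    fun x => InnerProductSpace.toDual_symm_apply
  have hg : u⁻¹ • (InnerProductSpace.toDual ℝ E).symm f ∈ pol K := by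
    intro x hx
    rw [real_inner_smul_left, hg₀]
    have := hf x hx
    rw [inv_mul_le_iff₀ hu0]
    linarith
  have := hz _ hg
  rw [real_inner_smul_left, hg₀, inv_mul_le_iff₀ hu0] at this
  linarith

theorem opp_of_functional {K : Set E} (hK : IsCompact K) (hconv : Convex ℝ K)
    (h0 : (0 : E) ∈ interior K) {a b : E} (f : E →L[ℝ] ℝ) (hab : f b < f a)
    (h : ∀ g ∈ pol K, f b ≤ f g ∧ f g ≤ f a) : Opp K a b := by
  have hy : ∀ x, ⟪x, (InnerProductSpace.toDual ℝ E).symm f⟫_ℝ = f x := fun x => by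
    rw [real_inner_comm]
    exact InnerProductSpace.toDual_symm_apply
  generalize (InnerProductSpace.toDual ℝ E).symm f = y at hy
  have hint : (0 : E) ∈ interior (pol K) := pol_interior hK
  obtain ⟨v, hv⟩ : ∃ v, 0 < f v := by
    obtain ⟨v, hv⟩ : ∃ v, f v ≠ 0 := by
      by_contra hh
      push Not at hh
      rw [hh, hh] at hab
      exact lt_irrefl _ hab
    rcases lt_or_gt_of_ne hv with h1 | h1
    · exact ⟨-v, by simpa using h1⟩
    · exact ⟨v, h1⟩
  obtain ⟨t, ht, htv, htv'⟩ : ∃ t : ℝ, 0 < t ∧ t • v ∈ pol K ∧ -(t • v) ∈ pol K := by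
    have h1 : Tendsto (fun t : ℝ => t • v) (𝓝 0) (𝓝 0) := by
      have h0' : Tendsto (fun t : ℝ => t • v) (𝓝 0) (𝓝 ((0 : ℝ) • v)) :=
        (continuous_id.smul continuous_const).tendsto 0
      rwa [zero_smul] at h0'
    have h2 : ∀ᶠ t in 𝓝 (0 : ℝ), t • v ∈ pol K :=
      h1.eventually (mem_interior_iff_mem_nhds.1 hint)
    have h4 : Tendsto (fun t : ℝ => -(t • v)) (𝓝 0) (𝓝 0) := by simpa using h1.neg
    have h3 : ∀ᶠ t in 𝓝 (0 : ℝ), -(t • v) ∈ pol K :=
      h4.eventually (mem_interior_iff_mem_nhds.1 hint)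
    have h5 : ∀ᶠ t in 𝓝[>] (0 : ℝ), (t • v ∈ pol K ∧ -(t • v) ∈ pol K) ∧ t ∈ Set.Ioi (0 : ℝ) :=
      ((h2.and h3).filter_mono nhdsWithin_le_nhds).and self_mem_nhdsWithin
    obtain ⟨t, ⟨ht1, ht2⟩, ht3⟩ := h5.exists
    exact ⟨t, ht3, ht1, ht2⟩
  have hM : 0 < f a := by
    have := (h _ htv).2
    rw [map_smul, smul_eq_mul] at this
    exact lt_of_lt_of_le (mul_pos ht hv) this
  have hm : f b < 0 := by
    have h1 := (h _ htv').1
    rw [map_neg, map_smul, smul_eq_mul] at h1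
    have := mul_pos ht hv
    linarith
  have e : -((f a / -(f b)) • (f a)⁻¹ • y) = (f b)⁻¹ • y := by
    rw [smul_smul, ← neg_smul]
    congr 1
    have := hM.ne'
    have := hm.ne
    field_simp
  refine ⟨(f a)⁻¹ • y, ?_, f a / (-(f b)), div_pos hM (neg_pos.2 hm), ?_, ?_, ?_⟩
  · apply mem_of_pol hK hconv h0
    intro g hg
    rw [real_inner_smul_right, hy, inv_mul_le_iff₀ hM, mul_one]
    exact (h g hg).2
  · rw [e]
    apply mem_of_pol hK hconv h0
    intro g hg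
    rw [real_inner_smul_right, hy]
    have h1 := (h g hg).1
    rw [← div_eq_inv_mul, div_le_one_of_neg hm]
    exact h1
  · rw [real_inner_smul_right, hy, inv_mul_cancel₀ hM.ne']
  · rw [e, real_inner_smul_right, hy, inv_mul_cancel₀ hm.ne]

end Pool.Agent.Lib.MP_5e7226_co.WL
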