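import Pool.Agent.Lib.MP_5e7226_co.WL.Defs

/-!
# Task A1: duality (Hahn-Banach)

PROOF. For `w : ι →₀ ℝ` put `T w = w.sum (fun _ a => a)` and `V x w = w.sum (fun i a => if x ∈ U i then a else 0)`; both
are linear in `w` (convenient: define them as `Finsupp.linearCombination ℝ (fun _ => 1) w` and
`Finsupp.linearCombination ℝ (fun i => if x ∈ U i then 1 else 0) w`, and show the equality with the sums once).
Let `A = {f : C(X, ℝ) | ∃ w, (∀ i, 0 ≤ w i) ∧ T w < 1 ∧ ∀ x, f x ≤ V x w}`.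
* `A` is convex (linearity), contains `0` (`w = 0`), and is downward closed.
* `A` is open: by compactness there is a finite set `s` of indices with `X = ⋃_{i ∈ s} U i`; `w' = ∑_{i ∈ s} single i 1` has
  `V x w' ≥ 1` for all `x` and `T w' = s.card =: M`. If `f ∈ A` with `w`, let `ε > 0` with `T w + ε M < 1`; if `‖g - f‖ < ε` then
  `g x ≤ f x + ε ≤ V x (w + ε • w')`.
* the constant function `c` is not in `A`: if `c ≤ V x w` for all `x`, `w ≥ 0`, `T w < 1`, apply `hno` to `c⁻¹ • w`: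
  `1 ≤ c * T (c⁻¹ • w) = T w < 1`.
`geometric_hahn_banach_open_point` gives `φ` with `φ f < φ (const c) = c * φ 1` for all `f ∈ A`. With `f = 0`: `0 < φ 1`.
Replace `φ` by `(φ 1)⁻¹ • φ`. Positivity: if `f ≥ 0` then `(-n) • f ∈ A` for all `n : ℕ` (`w = 0`), so `-n φ f < c φ 1` for all
`n`, so `0 ≤ φ f`. Last claim: for `0 < θ < 1` the function `θ • f` is in `A` (`w = single i θ`), so `θ φ f < c φ 1`; let `θ → 1`.
-/

set_option autoImplicit false

open Set Filter Topology
open scoped Classical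

namespace Pool.Agent.Lib.MP_5e7226_co.WL

/-- total weight -/
private noncomputable def A1_T (ι : Type*) : (ι →₀ ℝ) →ₗ[ℝ] ℝ :=
  Finsupp.linearCombination ℝ fun _ => (1 : ℝ)

/-- weight at `x` -/
private noncomputable def A1_V {X ι : Type*} (U : ι → Set X) (x : X) : (ι →₀ ℝ) →ₗ[ℝ] ℝ :=
  Finsupp.linearCombination ℝ fun i => if x ∈ U i then (1 : ℝ) else 0

private theorem A1_T_eq {ι : Type*} (w : ι →₀ ℝ) : w.sum (fun _ a => a) = A1_T ι w := by
  simp [A1_T, Finsupp.linearCombination_apply]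

private theorem A1_V_eq {X ι : Type*} (U : ι → Set X) (x : X) (w : ι →₀ ℝ) :
    w.sum (fun i a => if x ∈ U i then a else 0) = A1_V U x w := by
  simp [A1_V, Finsupp.linearCombination_apply]

/-- the functions dominated by a weight of total mass less than one -/
private def A1_A {X : Type*} [TopologicalSpace X] {ι : Type*} (U : ι → Set X) : Set C(X, ℝ) :=
  {f | ∃ w : ι →₀ ℝ, (∀ i, 0 ≤ w i) ∧ A1_T ι w < 1 ∧ ∀ x, f x ≤ A1_V U x w}

private theorem A1_convex {X : Type*} [TopologicalSpace X] {ι : Type*} (U : ι → Set X) :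
    Convex ℝ (A1_A U) := by
  rintro f ⟨w, hw0, hw1, hw⟩ g ⟨v, hv0, hv1, hv⟩ a b ha hb hab
  refine ⟨a • w + b • v, fun i => ?_, ?_, fun x => ?_⟩
  · rw [Finsupp.add_apply, Finsupp.smul_apply, Finsupp.smul_apply, smul_eq_mul, smul_eq_mul]
    have h1 := mul_nonneg ha (hw0 i)
    have h2 := mul_nonneg hb (hv0 i)
    linarith
  · rw [map_add, map_smul, map_smul]
    exact (convex_Iio (1 : ℝ)) hw1 hv1 ha hb hab
  · rw [map_add, map_smul, map_smul, ContinuousMap.add_apply, ContinuousMap.smul_apply,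
      ContinuousMap.smul_apply, smul_eq_mul, smul_eq_mul, smul_eq_mul, smul_eq_mul]
    have h1 := mul_le_mul_of_nonneg_left (hw x) ha
    have h2 := mul_le_mul_of_nonneg_left (hv x) hb
    linarith

private theorem A1_open {X : Type*} [TopologicalSpace X] [CompactSpace X]
    {ι : Type*} (U : ι → Set X) (hU : ∀ i, IsOpen (U i)) (hcov : ∀ x : X, ∃ i, x ∈ U i) :
    IsOpen (A1_A U) := by
  obtain ⟨s, hs⟩ := isCompact_univ.elim_finite_subcover U hU
    (fun x _ => mem_iUnion.2 (hcov x))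
  obtain ⟨v, hv⟩ : ∃ v : ι →₀ ℝ, v = ∑ i ∈ s, Finsupp.single i (1 : ℝ) := ⟨_, rfl⟩
  have hv0 : ∀ i, 0 ≤ v i := by
    intro i
    rw [hv, Finsupp.finsetSum_apply]
    refine Finset.sum_nonneg fun j _ => ?_
    rw [Finsupp.single_apply]
    split_ifs
    · exact zero_le_one
    · exact le_rfl
  have hvT : A1_T ι v = s.card := by
    rw [hv, map_sum]
    simp [A1_T]
  have hvV : ∀ x, 1 ≤ A1_V U x v := by
    intro x
    have h1 := hs (mem_univ x)
    simp only [mem_iUnion] at h1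
    obtain ⟨i, his, hi⟩ := h1
    rw [hv, map_sum]
    have h2 : ∀ j, A1_V U x (Finsupp.single j (1 : ℝ)) = if x ∈ U j then (1 : ℝ) else 0 := by
      intro j
      simp [A1_V]
    simp only [h2]
    have h3 := Finset.single_le_sum (f := fun j => if x ∈ U j then (1 : ℝ) else 0)
      (fun j _ => by split_ifs; exacts [zero_le_one, le_rfl]) his
    simpa [hi] using h3
  rw [Metric.isOpen_iff]
  rintro f ⟨w, hw0, hw1, hw⟩
  have hM : (0 : ℝ) < s.card + 1 := by positivity
  have hd : 0 < 1 - A1_T ι w := by linarith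
  refine ⟨(1 - A1_T ι w) / (s.card + 1), div_pos hd hM, fun g hg => ?_⟩
  set ε : ℝ := (1 - A1_T ι w) / (s.card + 1) with hε
  have hε0 : 0 < ε := div_pos hd hM
  have hε1 : ε * (s.card + 1) = 1 - A1_T ι w := by
    rw [hε]
    field_simp
  refine ⟨w + ε • v, fun i => ?_, ?_, fun x => ?_⟩
  · rw [Finsupp.add_apply, Finsupp.smul_apply, smul_eq_mul]
    have h1 := mul_nonneg hε0.le (hv0 i)
    have h2 := hw0 i
    linarith
  · rw [map_add, map_smul, smul_eq_mul, hvT]
    linarith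
  · rw [map_add, map_smul, smul_eq_mul]
    have h1 : dist (g x) (f x) ≤ dist g f := ContinuousMap.dist_apply_le_dist x
    rw [Metric.mem_ball] at hg
    rw [Real.dist_eq] at h1
    have h2 := le_abs_self (g x - f x)
    have h3 := hw x
    have h4 := mul_le_mul_of_nonneg_left (hvV x) hε0.le
    linarith

theorem exists_functional {X : Type*} [TopologicalSpace X] [CompactSpace X] [Nonempty X]
    {ι : Type*} (U : ι → Set X) (hU : ∀ i, IsOpen (U i)) (hcov : ∀ x : X, ∃ i, x ∈ U i)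
    {c : ℝ} (hc : 0 < c)
    (hno : ∀ w : ι →₀ ℝ, (∀ i, 0 ≤ w i) →
      (∀ x : X, 1 ≤ w.sum fun i a => if x ∈ U i then a else 0) → 1 ≤ c * w.sum fun _ a => a) :
    ∃ φ : C(X, ℝ) →L[ℝ] ℝ, φ 1 = 1 ∧ (∀ f : C(X, ℝ), (∀ x, 0 ≤ f x) → 0 ≤ φ f) ∧
      ∀ (i : ι) (f : C(X, ℝ)), (∀ x, f x ≤ if x ∈ U i then 1 else 0) → φ f ≤ c := by
  have hcA : c • (1 : C(X, ℝ)) ∉ A1_A U := by
    rintro ⟨w, hw0, hw1, hw⟩
    have h1 := hno (c⁻¹ • w) (fun i => by
      rw [Finsupp.smul_apply, smul_eq_mul]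
      exact mul_nonneg (inv_nonneg.2 hc.le) (hw0 i)) (fun x => by
      rw [A1_V_eq, map_smul, smul_eq_mul]
      have h2 := hw x
      rw [ContinuousMap.smul_apply, ContinuousMap.one_apply, smul_eq_mul, mul_one] at h2
      rw [← div_eq_inv_mul, le_div_iff₀ hc, one_mul]
      exact h2)
    rw [A1_T_eq, map_smul, smul_eq_mul, ← mul_assoc, mul_inv_cancel₀ hc.ne', one_mul] at h1
    linarith
  obtain ⟨φ, hφ⟩ := geometric_hahn_banach_open_point (A1_convex U) (A1_open U hU hcov) hcA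
  rw [map_smul, smul_eq_mul] at hφ
  have h0A : (0 : C(X, ℝ)) ∈ A1_A U :=
    ⟨0, fun i => le_rfl, by rw [map_zero]; exact zero_lt_one, fun x => by
      rw [map_zero, ContinuousMap.zero_apply]⟩
  have hp : 0 < φ 1 := by
    have h1 := hφ 0 h0A
    rw [map_zero] at h1
    exact (mul_pos_iff_of_pos_left hc).1 h1
  refine ⟨(φ 1)⁻¹ • φ, ?_, fun f hf => ?_, fun i f hf => ?_⟩
  · rw [_root_.smul_apply, smul_eq_mul, inv_mul_cancel₀ hp.ne']
  · rw [_root_.smul_apply, smul_eq_mul]
    refine mul_nonneg (inv_nonneg.2 hp.le) ?_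
    by_contra hcon
    push Not at hcon
    obtain ⟨n, hn⟩ := exists_nat_gt (c * φ 1 / (-φ f))
    have hneg : 0 < -φ f := by linarith
    have h1 := hφ ((-(n : ℝ)) • f) ⟨0, fun i => le_rfl, by rw [map_zero]; exact zero_lt_one,
      fun x => by
        rw [map_zero, ContinuousMap.smul_apply, smul_eq_mul]
        have h2 := mul_nonneg (Nat.cast_nonneg (α := ℝ) n) (hf x)
        linarith⟩
    rw [map_smul, smul_eq_mul] at h1
    rw [div_lt_iff₀ hneg] at hn
    linarith
  · rw [_root_.smul_apply, smul_eq_mul, ← div_eq_inv_mul, div_le_iff₀ hp]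
    by_contra hcon
    push Not at hcon
    have hcp : 0 < c * φ 1 := mul_pos hc hp
    have hfp : 0 < φ f := hcp.trans hcon
    obtain ⟨θ, hθ1, hθ2⟩ := exists_between ((div_lt_one hfp).2 hcon)
    have hθ0 : 0 < θ := (div_pos hcp hfp).trans hθ1
    have h1 := hφ (θ • f) ⟨Finsupp.single i θ, fun j => by
      rw [Finsupp.single_apply]
      split_ifs
      · exact hθ0.le
      · exact le_rfl, by simpa [A1_T] using hθ2, fun x => by
        rw [ContinuousMap.smul_apply, smul_eq_mul]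
        have h2 : A1_V U x (Finsupp.single i θ) = θ * (if x ∈ U i then (1 : ℝ) else 0) := by
          simp [A1_V]
        rw [h2]
        exact mul_le_mul_of_nonneg_left (hf x) hθ0.le⟩
    rw [map_smul, smul_eq_mul] at h1
    rw [div_lt_iff₀ hfp] at hθ1
    linarith

end Pool.Agent.Lib.MP_5e7226_co.WL
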