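import Pool.Agent.Lib.MP_5e7226_co.WL.A1

/-!
# Task A2: from the functional to a measure (Riesz-Markov-Kakutani)

PROOF. Let `X = ↥P` (compact: `isCompact_iff_compactSpace`), `U' i = Subtype.val ⁻¹' U i`. Apply `exists_functional` to get `φ`
on `C(X, ℝ)` (for `hno`: translate `∀ x : X` to `∀ x ∈ P`). Let `Λ : C_c(X, ℝ) →ₚ[ℝ] ℝ` be `f ↦ φ f` (`C_c(X,ℝ)` coerces to
`C(X,ℝ)`: `f.toContinuousMap`; see the construction of `Λ'` in Mathlib/MeasureTheory/Measure/Prokhorov.lean,
`isCompact_setOfPred_finiteMeasure_le_of_compactSpace`), and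
`ν = RealRMK.rieszMeasure Λ` (finite, regular, `RealRMK.integral_rieszMeasure : ∫ f dν = Λ f`). With `f = 1`: `ν univ = 1`.
For every `i`: `ν (U' i) ≤ c`: `U' i` is open and `ν` regular, so it suffices (`IsOpen.measure_eq_iSup_isCompact`) that
`ν C ≤ c` for compact `C ⊆ U' i`. By `exists_continuousMap_one_of_isCompact_subset_isOpen` there is a continuous `f : X → [0,1]`,
`f = 1` on `C`, with (t)support in `U' i`; `RealRMK.rieszMeasure_le_of_eq_one` gives `ν C ≤ ofReal (Λ f)` and `Λ f = φ f ≤ c` by the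
last clause of `exists_functional`. Finally `ρ = ν.map Subtype.val`.
-/

set_option autoImplicit false

open Set Filter Topology MeasureTheory
open scoped Classical

namespace Pool.Agent.Lib.MP_5e7226_co.WL

theorem exists_measure {E : Type*} [NormedAddCommGroup E] [MeasurableSpace E]
    [BorelSpace E] {P : Set E} (hP : IsCompact P) (hne : P.Nonempty) {ι : Type*} (U : ι → Set E)
    (hU : ∀ i, IsOpen (U i)) (hcov : P ⊆ ⋃ i, U i) {c : ℝ} (hc : 0 < c)
    (hno : ∀ w : ι →₀ ℝ, (∀ i, 0 ≤ w i) →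
      (∀ x ∈ P, 1 ≤ w.sum fun i a => if x ∈ U i then a else 0) → 1 ≤ c * w.sum fun _ a => a) :
    ∃ ρ : Measure E, IsProbabilityMeasure ρ ∧ ρ Pᶜ = 0 ∧ ∀ i, ρ (U i) ≤ ENNReal.ofReal c := by
  have hX : CompactSpace ↥P := isCompact_iff_compactSpace.1 hP
  have hN : Nonempty ↥P := hne.to_subtype
  have hU' : ∀ i, IsOpen ((Subtype.val : ↥P → E) ⁻¹' U i) := fun i =>
    (hU i).preimage continuous_subtype_val
  obtain ⟨φ, h1, hpos, hφ⟩ := exists_functional (X := ↥P) (fun i => Subtype.val ⁻¹' U i) hU'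
    (fun x => (mem_iUnion.1 (hcov x.2) : ∃ i, (x : E) ∈ U i)) hc (fun w hw0 hw => hno w hw0 fun x hx => hw ⟨x, hx⟩)
  let Λ : CompactlySupportedContinuousMap ↥P ℝ →ₚ[ℝ] ℝ :=
  { toFun := fun f => φ f.toContinuousMap
    map_add' := fun f g => by
      rw [← map_add]
      rfl
    map_smul' := fun a f => by
      rw [RingHom.id_apply, ← map_smul]
      rfl
    monotone' := fun f g hfg => by
      have h2 : 0 ≤ φ (g.toContinuousMap - f.toContinuousMap) :=
        hpos _ fun x => sub_nonneg.2 (hfg x)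
      rw [map_sub] at h2
      linarith }
  have hΛ : ∀ f, Λ f = φ f.toContinuousMap := fun f => rfl
  obtain ⟨ν, hν⟩ : ∃ ν, ν = RealRMK.rieszMeasure Λ := ⟨_, rfl⟩
  have hfin : IsFiniteMeasure ν := by
    rw [hν]
    infer_instance
  have hreg : ν.Regular := by
    rw [hν]
    infer_instance
  let o : CompactlySupportedContinuousMap ↥P ℝ :=
  { toFun := 1
    hasCompactSupport' := HasCompactSupport.of_compactSpace 1 }
  have ho : ∀ x, o x = 1 := fun x => rfl
  have hu : ν univ = 1 := by
    have h2 := RealRMK.integral_rieszMeasure Λ o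
    rw [← hν] at h2
    simp only [ho, integral_const, smul_eq_mul, mul_one] at h2
    have h3 : Λ o = 1 := by
      rw [hΛ, ← h1]
      rfl
    rw [h3, measureReal_def, ENNReal.toReal_eq_one_iff] at h2
    exact h2
  have hprob : IsProbabilityMeasure ν := ⟨hu⟩
  have hi : ∀ i, ν (Subtype.val ⁻¹' U i) ≤ ENNReal.ofReal c := by
    intro i
    rw [(hU' i).measure_eq_iSup_isCompact]
    refine iSup_le fun C => iSup_le fun hC => iSup_le fun hCc => ?_
    obtain ⟨f, hf1, -, hf2, hf3⟩ := exists_continuousMap_one_of_isCompact_subset_isOpen hCc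
      (hU' i) hC
    let F : CompactlySupportedContinuousMap ↥P ℝ :=
    { toContinuousMap := f
      hasCompactSupport' := HasCompactSupport.of_compactSpace _ }
    have hF : ∀ x, F x = f x := fun x => rfl
    have h2 : ν C ≤ ENNReal.ofReal (Λ F) := by
      rw [hν]
      exact RealRMK.rieszMeasure_le_of_eq_one Λ (fun x => by rw [hF]; exact (hf3 x).1) hCc
        (fun x hx => by rw [hF]; exact hf1 hx)
    refine h2.trans (ENNReal.ofReal_le_ofReal ?_)
    rw [hΛ]
    refine hφ i f fun x => ?_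
    split_ifs with hx
    · exact (hf3 x).2
    · have h3 : x ∉ tsupport f := fun h => hx (hf2 h)
      rw [image_eq_zero_of_notMem_tsupport h3]
  refine ⟨ν.map Subtype.val, Measure.isProbabilityMeasure_map measurable_subtype_coe.aemeasurable,
    ?_, fun i => ?_⟩
  · rw [Measure.map_apply measurable_subtype_coe hP.isClosed.measurableSet.compl]
    have h2 : (Subtype.val : ↥P → E) ⁻¹' Pᶜ = ∅ := by
      ext x
      simp
    rw [h2, measure_empty]
  · rw [Measure.map_apply measurable_subtype_coe (hU i).measurableSet]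
    exact hi i

end Pool.Agent.Lib.MP_5e7226_co.WL
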