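import Pool.Agent.Lib.MP_5e7226_co.WL.Defs

/-!
# Task B1: the two functions have the same integral and the same second moment

PROOF. Everything is Tonelli in `ℝ≥0∞`. `ρ {x | x - t ∈ L} = ∫⁻ x, L.indicator 1 (x - t) ∂ρ` (`lintegral_indicator_one` for
the preimage), measurable in `t` by `Measurable.lintegral_prod_right'` (or `measurable_measure_prodMk_left`). Swap with
`lintegral_lintegral_swap`. `∫⁻ t, L.indicator 1 (x - t) ∂μ = μ L` by `lintegral_sub_left_eq_self` (Haar measure is invariant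
under `t ↦ x - t`), `∫⁻ w, L.indicator 1 (w - x) ∂μ = μ L` by `lintegral_sub_right_eq_self`.
`int_sq`: `(ρ {x | x - t ∈ L})^2 = ∫⁻ x, ∫⁻ y, 1_L (x - t) * 1_L (y - t) ∂ρ ∂ρ`; after swapping (twice) the left side is
`∫⁻ x, ∫⁻ y, (∫⁻ t, 1_L (x - t) * 1_L (y - t) ∂μ) ∂ρ ∂ρ`, the right side
`∫⁻ x, ∫⁻ y, (∫⁻ w, 1_L (w - x) * 1_L (w - y) ∂μ) ∂ρ ∂ρ`, and the inner integrals are equal: substitute `t = (x + y) - w`
(`lintegral_sub_left_eq_self`), `x - t = w - y`, `y - t = w - x`.
-/

set_option autoImplicit false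

open Set Filter Topology MeasureTheory
open scoped Classical

namespace Pool.Agent.Lib.MP_5e7226_co.WL

variable {E : Type*} [NormedAddCommGroup E] [NormedSpace ℝ E] [FiniteDimensional ℝ E]
  [MeasurableSpace E] [BorelSpace E]

private theorem B1_meas_sub1 {L : Set E} (hL : MeasurableSet L) :
    MeasurableSet {p : E × E | p.2 - p.1 ∈ L} :=
  (measurable_snd.sub measurable_fst) hL

private theorem B1_meas_sub2 {L : Set E} (hL : MeasurableSet L) :
    MeasurableSet {p : E × E | p.1 - p.2 ∈ L} :=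
  (measurable_fst.sub measurable_snd) hL

theorem meas_h (ρ : Measure E) [IsProbabilityMeasure ρ] {L : Set E} (hL : MeasurableSet L) :
    Measurable (fun t : E => ρ {x | x - t ∈ L}) :=
  measurable_measure_prodMk_left (B1_meas_sub1 hL)

theorem meas_H (ρ : Measure E) [IsProbabilityMeasure ρ] {L : Set E} (hL : MeasurableSet L) :
    Measurable (fun w : E => ρ {x | w - x ∈ L}) :=
  measurable_measure_prodMk_left (B1_meas_sub2 hL)

/-- The indicator function. -/
private noncomputable def B1_ind {E : Type*} (L : Set E) : E → ENNReal := L.indicator 1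

omit [NormedAddCommGroup E] [NormedSpace ℝ E] [FiniteDimensional ℝ E] [BorelSpace E] in
private theorem B1_ind_meas {L : Set E} (hL : MeasurableSet L) : Measurable (B1_ind L) :=
  measurable_one.indicator hL

omit [NormedSpace ℝ E] [FiniteDimensional ℝ E] in
private theorem B1_h_eq (ρ : Measure E) {L : Set E} (hL : MeasurableSet L) (t : E) :
    ρ {x | x - t ∈ L} = ∫⁻ x, B1_ind L (x - t) ∂ρ := by
  have h1 : MeasurableSet {x : E | x - t ∈ L} := (measurable_id.sub_const t) hL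
  rw [← lintegral_indicator_one h1]
  rfl

omit [NormedSpace ℝ E] [FiniteDimensional ℝ E] in
private theorem B1_H_eq (ρ : Measure E) {L : Set E} (hL : MeasurableSet L) (w : E) :
    ρ {x | w - x ∈ L} = ∫⁻ x, B1_ind L (w - x) ∂ρ := by
  have h1 : MeasurableSet {x : E | w - x ∈ L} := (measurable_id.const_sub w) hL
  rw [← lintegral_indicator_one h1]
  rfl

omit [NormedAddCommGroup E] [NormedSpace ℝ E] [FiniteDimensional ℝ E] [BorelSpace E] in
private theorem B1_mass (μ : Measure E) {L : Set E} (hL : MeasurableSet L) :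
    ∫⁻ x, B1_ind L x ∂μ = μ L := by
  unfold B1_ind
  exact lintegral_indicator_one hL

theorem int_h (μ : Measure E) [μ.IsAddHaarMeasure] (ρ : Measure E) [IsProbabilityMeasure ρ]
    {L : Set E} (hL : MeasurableSet L) : ∫⁻ t, ρ {x | x - t ∈ L} ∂μ = μ L := by
  have h1 : ∀ t, ρ {x | x - t ∈ L} = ∫⁻ x, B1_ind L (x - t) ∂ρ := B1_h_eq ρ hL
  rw [lintegral_congr h1]
  rw [lintegral_lintegral_swap (f := fun t x => B1_ind L (x - t))
    (((B1_ind_meas hL).comp (measurable_snd.sub measurable_fst)).aemeasurable)]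
  have h2 : ∀ x : E, ∫⁻ t, B1_ind L (x - t) ∂μ = μ L := by
    intro x
    rw [lintegral_sub_left_eq_self (B1_ind L) x, B1_mass μ hL]
  rw [lintegral_congr h2, lintegral_const, measure_univ, mul_one]

theorem int_H (μ : Measure E) [μ.IsAddHaarMeasure] (ρ : Measure E) [IsProbabilityMeasure ρ]
    {L : Set E} (hL : MeasurableSet L) : ∫⁻ w, ρ {x | w - x ∈ L} ∂μ = μ L := by
  have h1 : ∀ w, ρ {x | w - x ∈ L} = ∫⁻ x, B1_ind L (w - x) ∂ρ := B1_H_eq ρ hL
  rw [lintegral_congr h1]
  rw [lintegral_lintegral_swap (f := fun w x => B1_ind L (w - x))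
    (((B1_ind_meas hL).comp (measurable_fst.sub measurable_snd)).aemeasurable)]
  have h2 : ∀ x : E, ∫⁻ w, B1_ind L (w - x) ∂μ = μ L := by
    intro x
    rw [lintegral_sub_right_eq_self (B1_ind L) x, B1_mass μ hL]
  rw [lintegral_congr h2, lintegral_const, measure_univ, mul_one]

omit [NormedAddCommGroup E] [NormedSpace ℝ E] [FiniteDimensional ℝ E] [BorelSpace E] in
private theorem B1_sq (ρ : Measure E) [IsProbabilityMeasure ρ] (f : E → ENNReal)
    (hf : Measurable f) : (∫⁻ x, f x ∂ρ) ^ 2 = ∫⁻ x, ∫⁻ y, f x * f y ∂ρ ∂ρ := by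
  have h1 : ∀ x, ∫⁻ y, f x * f y ∂ρ = f x * ∫⁻ y, f y ∂ρ := fun x => lintegral_const_mul _ hf
  rw [lintegral_congr h1, lintegral_mul_const _ hf, sq]

omit [BorelSpace E] in
private theorem B1_triple (μ : Measure E) [μ.IsAddHaarMeasure] (ρ : Measure E)
    [IsProbabilityMeasure ρ] (F : E → E → ENNReal) (hF : Measurable (Function.uncurry F)) :
    ∫⁻ t, (∫⁻ x, F t x ∂ρ) ^ 2 ∂μ = ∫⁻ x, ∫⁻ y, ∫⁻ t, F t x * F t y ∂μ ∂ρ ∂ρ := by
  have hFt : ∀ t, Measurable (F t) := fun t => hF.comp (measurable_const.prodMk measurable_id)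
  have h1 : ∀ t, (∫⁻ x, F t x ∂ρ) ^ 2 = ∫⁻ x, ∫⁻ y, F t x * F t y ∂ρ ∂ρ :=
    fun t => B1_sq ρ (F t) (hFt t)
  rw [lintegral_congr h1]
  have hm : Measurable (fun q : (E × E) × E => F q.1.1 q.1.2 * F q.1.1 q.2) := by
    have e1 : Measurable (fun q : (E × E) × E => (q.1.1, q.2)) :=
      (measurable_fst.comp measurable_fst).prodMk measurable_snd
    have e2 : Measurable (fun q : (E × E) × E => F q.1.1 q.1.2) := hF.comp measurable_fst
    have e3 : Measurable (fun q : (E × E) × E => F q.1.1 q.2) := hF.comp e1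
    exact e2.mul e3
  have h2 : Measurable (fun q : E × E => ∫⁻ y, F q.1 q.2 * F q.1 y ∂ρ) :=
    hm.lintegral_prod_right'
  rw [lintegral_lintegral_swap (f := fun t x => ∫⁻ y, F t x * F t y ∂ρ) h2.aemeasurable]
  refine lintegral_congr fun x => ?_
  refine lintegral_lintegral_swap (f := fun t y => F t x * F t y) (Measurable.aemeasurable ?_)
  refine (hF.comp (measurable_fst.prodMk measurable_const)).mul hF

theorem int_sq (μ : Measure E) [μ.IsAddHaarMeasure] (ρ : Measure E) [IsProbabilityMeasure ρ]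
    {L : Set E} (hL : MeasurableSet L) :
    ∫⁻ t, ρ {x | x - t ∈ L} ^ 2 ∂μ = ∫⁻ w, ρ {x | w - x ∈ L} ^ 2 ∂μ := by
  have h1 : ∀ t, ρ {x | x - t ∈ L} ^ 2 = (∫⁻ x, B1_ind L (x - t) ∂ρ) ^ 2 :=
    fun t => by rw [B1_h_eq ρ hL t]
  have h2 : ∀ w, ρ {x | w - x ∈ L} ^ 2 = (∫⁻ x, B1_ind L (w - x) ∂ρ) ^ 2 :=
    fun w => by rw [B1_H_eq ρ hL w]
  rw [lintegral_congr h1, lintegral_congr h2]
  rw [B1_triple μ ρ (fun t x => B1_ind L (x - t))
    ((B1_ind_meas hL).comp (measurable_snd.sub measurable_fst)),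
    B1_triple μ ρ (fun w x => B1_ind L (w - x))
    ((B1_ind_meas hL).comp (measurable_fst.sub measurable_snd))]
  refine lintegral_congr fun x => lintegral_congr fun y => ?_
  rw [← lintegral_sub_left_eq_self (fun t => B1_ind L (x - t) * B1_ind L (y - t)) (x + y)]
  refine lintegral_congr fun w => ?_
  have e1 : x - (x + y - w) = w - y := by abel
  have e2 : y - (x + y - w) = w - x := by abel
  rw [e1, e2, mul_comm]

end Pool.Agent.Lib.MP_5e7226_co.WL
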