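import Pool.Agent.Lib.MP_5e7226_co.WL.B1

/-!
# Task B2: the function `H` is constant

PROOF. `h t = ρ {x | x - t ∈ L}`, `H w = ρ {x | w - x ∈ L}`, both `≤ 1`, measurable (B1). `Hr w = (H w).toReal`. By B1 and
`hle`: `∫⁻ H^2 = ∫⁻ h^2 ≤ ofReal c * ∫⁻ h = ofReal c * μ L`. As `H = 0` outside `S`: `∫_S H = μ L`, `∫_S H^2 ≤ c μ L`, and
`c^2 μ S = c μ L`. In real numbers (`μ S`, `μ L` finite; `integral_toReal`, `Hr` is bounded and measurable, so integrable on `S`):
`∫_S (Hr - c)^2 = ∫_S Hr^2 - 2 c ∫_S Hr + c^2 μ S ≤ c μ L - 2 c μ L + c μ L = 0`. A nonnegative function with integral `≤ 0` vanishes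
almost everywhere (`integral_eq_zero_iff_of_nonneg`), so `Hr = c` a.e. on `S`; `H w = ofReal (Hr w)` (`ENNReal.ofReal_toReal`).
-/

set_option autoImplicit false

open Set Filter Topology MeasureTheory
open scoped Classical

namespace Pool.Agent.Lib.MP_5e7226_co.WL

variable {E : Type*} [NormedAddCommGroup E] [NormedSpace ℝ E] [FiniteDimensional ℝ E]
  [MeasurableSpace E] [BorelSpace E]

theorem ae_const (μ : Measure E) [μ.IsAddHaarMeasure] (ρ : Measure E) [IsProbabilityMeasure ρ]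
    {L S : Set E} (hL : MeasurableSet L) (hS : MeasurableSet S) (hSfin : μ S ≠ ⊤) (hLfin : μ L ≠ ⊤)
    {c : ℝ} (hc : 0 < c) (hcS : ENNReal.ofReal c * μ S = μ L)
    (hsupp : ∀ w, w ∉ S → ρ {x | w - x ∈ L} = 0)
    (hle : ∀ t : E, ρ {x | x - t ∈ L} ≤ ENNReal.ofReal c) :
    ∀ᵐ w ∂(μ.restrict S), ρ {x | w - x ∈ L} = ENNReal.ofReal c := by
  have hHm : Measurable (fun w : E => ρ {x | w - x ∈ L}) := meas_H ρ hL
  have hhm : Measurable (fun t : E => ρ {x | x - t ∈ L}) := meas_h ρ hL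
  have hH1 : ∀ w : E, ρ {x | w - x ∈ L} ≤ 1 := fun w => prob_le_one
  have hHt : ∀ w : E, ρ {x | w - x ∈ L} ≠ ⊤ := fun w => measure_ne_top _ _
  have e1 : ∫⁻ w in S, ρ {x | w - x ∈ L} ∂μ = μ L := by
    rw [← int_H μ ρ hL, ← lintegral_indicator hS]
    refine lintegral_congr fun w => ?_
    by_cases hw : w ∈ S
    · rw [indicator_of_mem hw]
    · rw [indicator_of_notMem hw, hsupp w hw]
  have e2 : ∫⁻ w in S, ρ {x | w - x ∈ L} ^ 2 ∂μ ≤ ENNReal.ofReal c * μ L := by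
    calc ∫⁻ w in S, ρ {x | w - x ∈ L} ^ 2 ∂μ ≤ ∫⁻ w, ρ {x | w - x ∈ L} ^ 2 ∂μ :=
          setLIntegral_le_lintegral _ _
      _ = ∫⁻ t, ρ {x | x - t ∈ L} ^ 2 ∂μ := (int_sq μ ρ hL).symm
      _ ≤ ∫⁻ t, ENNReal.ofReal c * ρ {x | x - t ∈ L} ∂μ := by
          refine lintegral_mono fun t => ?_
          show ρ {x | x - t ∈ L} ^ 2 ≤ ENNReal.ofReal c * ρ {x | x - t ∈ L}
          rw [sq]
          gcongr
          exact hle t
      _ = ENNReal.ofReal c * μ L := by
          rw [lintegral_const_mul _ hhm, int_h μ ρ hL]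
  have hcL : ENNReal.ofReal c * μ L ≠ ⊤ := ENNReal.mul_ne_top ENNReal.ofReal_ne_top hLfin
  have e2t : ∫⁻ w in S, ρ {x | w - x ∈ L} ^ 2 ∂μ ≠ ⊤ := ne_top_of_le_ne_top hcL e2
  have e1t : ∫⁻ w in S, ρ {x | w - x ∈ L} ∂μ ≠ ⊤ := by rw [e1]; exact hLfin
  have hSfin' : IsFiniteMeasure (μ.restrict S) :=
    ⟨by rw [Measure.restrict_apply_univ]; exact lt_top_iff_ne_top.mpr hSfin⟩
  have i1 : Integrable (fun w : E => (ρ {x | w - x ∈ L}).toReal) (μ.restrict S) :=
    integrable_toReal_of_lintegral_ne_top hHm.aemeasurable e1t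
  have i2' : Integrable (fun w : E => (ρ {x | w - x ∈ L} ^ 2).toReal) (μ.restrict S) :=
    integrable_toReal_of_lintegral_ne_top (hHm.pow_const 2).aemeasurable e2t
  have i2 : Integrable (fun w : E => (ρ {x | w - x ∈ L}).toReal ^ 2) (μ.restrict S) := by
    refine i2'.congr (Filter.Eventually.of_forall fun w => ?_)
    exact ENNReal.toReal_pow _ _
  have r1 : ∫ w in S, (ρ {x | w - x ∈ L}).toReal ∂μ = (μ L).toReal := by
    rw [integral_toReal hHm.aemeasurable
      (Filter.Eventually.of_forall fun w => lt_top_iff_ne_top.mpr (hHt w)), e1]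
  have r2 : ∫ w in S, (ρ {x | w - x ∈ L}).toReal ^ 2 ∂μ ≤ c * (μ L).toReal := by
    have h1 : ∫ w in S, (ρ {x | w - x ∈ L}).toReal ^ 2 ∂μ
        = ∫ w in S, (ρ {x | w - x ∈ L} ^ 2).toReal ∂μ := by
      refine integral_congr_ae (Filter.Eventually.of_forall fun w => ?_)
      exact (ENNReal.toReal_pow _ _).symm
    rw [h1, integral_toReal (hHm.pow_const 2).aemeasurable
      (Filter.Eventually.of_forall fun w =>
        lt_top_iff_ne_top.mpr (ENNReal.pow_ne_top (hHt w)))]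
    calc (∫⁻ w in S, ρ {x | w - x ∈ L} ^ 2 ∂μ).toReal ≤ (ENNReal.ofReal c * μ L).toReal :=
          ENNReal.toReal_mono hcL e2
      _ = c * (μ L).toReal := by
          rw [ENNReal.toReal_mul, ENNReal.toReal_ofReal hc.le]
  have r3 : c * (μ S).toReal = (μ L).toReal := by
    rw [← hcS, ENNReal.toReal_mul, ENNReal.toReal_ofReal hc.le]
  have i3 : Integrable (fun w : E => ((ρ {x | w - x ∈ L}).toReal - c) ^ 2) (μ.restrict S) := by
    have : (fun w : E => ((ρ {x | w - x ∈ L}).toReal - c) ^ 2)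
        = fun w : E => (ρ {x | w - x ∈ L}).toReal ^ 2 - 2 * c * (ρ {x | w - x ∈ L}).toReal
            + c ^ 2 := by
      funext w; ring
    rw [this]
    exact (i2.sub (i1.const_mul (2 * c))).add (integrable_const _)
  have r4 : ∫ w in S, ((ρ {x | w - x ∈ L}).toReal - c) ^ 2 ∂μ ≤ 0 := by
    have h1 : ∫ w in S, ((ρ {x | w - x ∈ L}).toReal - c) ^ 2 ∂μ
        = ∫ w in S, (ρ {x | w - x ∈ L}).toReal ^ 2 ∂μ
          - 2 * c * ∫ w in S, (ρ {x | w - x ∈ L}).toReal ∂μ + c ^ 2 * (μ S).toReal := by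
      have h2 : ∫ w in S, ((ρ {x | w - x ∈ L}).toReal - c) ^ 2 ∂μ
          = ∫ w in S, ((ρ {x | w - x ∈ L}).toReal ^ 2
            - 2 * c * (ρ {x | w - x ∈ L}).toReal + c ^ 2) ∂μ := by
        refine integral_congr_ae (Filter.Eventually.of_forall fun w => ?_)
        show ((ρ {x | w - x ∈ L}).toReal - c) ^ 2 = (ρ {x | w - x ∈ L}).toReal ^ 2
            - 2 * c * (ρ {x | w - x ∈ L}).toReal + c ^ 2
        ring
      have i4 : Integrable (fun w : E => (ρ {x | w - x ∈ L}).toReal ^ 2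
          - 2 * c * (ρ {x | w - x ∈ L}).toReal) (μ.restrict S) := i2.sub (i1.const_mul (2 * c))
      have i5 : Integrable (fun w : E => 2 * c * (ρ {x | w - x ∈ L}).toReal) (μ.restrict S) :=
        i1.const_mul (2 * c)
      rw [h2, integral_add i4 (integrable_const _), integral_sub i2 i5, integral_const_mul,
        integral_const]
      simp only [smul_eq_mul, Measure.real, Measure.restrict_apply_univ]
      ring
    rw [h1, r1]
    have h3 : c ^ 2 * (μ S).toReal = c * (μ L).toReal := by rw [← r3]; ring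
    rw [h3]
    nlinarith [r2]
  have r5 : ∫ w in S, ((ρ {x | w - x ∈ L}).toReal - c) ^ 2 ∂μ = 0 :=
    le_antisymm r4 (integral_nonneg fun w => sq_nonneg _)
  have r6 := (integral_eq_zero_iff_of_nonneg (fun w => sq_nonneg _) i3).mp r5
  filter_upwards [r6] with w hw
  have hw' : ((ρ {x | w - x ∈ L}).toReal - c) ^ 2 = 0 := hw
  have hw'' : (ρ {x | w - x ∈ L}).toReal = c := by
    have := pow_eq_zero_iff (two_ne_zero) |>.mp hw'
    linarith
  rw [← hw'', ENNReal.ofReal_toReal (hHt w)]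

end Pool.Agent.Lib.MP_5e7226_co.WL
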