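import Pool.Agent.Lib.MP_5e7226_co.WL.Defs

/-!
# Task C0: geometry of the double of a convex body

PROOFS. `add_mem_double`: the set `(fun y => x + y) '' interior P` is open and contained in `(2:ℝ) • P` (for `y ∈ P`:
`x + y = 2 • ((1/2) • x + (1/2) • y)`), and `w = x + (w - x)`.
`vol_double`: `interior ((2:ℝ) • P) = (2:ℝ) • interior P` (`interior_smul₀`) and `Measure.addHaar_smul`.
`two_smul_mem_closure`: `closure (interior ((2:ℝ) • P)) = closure ((2:ℝ) • P)` (`Convex.closure_interior_eq_closure_of_nonempty_interior`)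
or directly.
`localize`: otherwise there are (by contradiction, `δ = 1/(n+1)`) `w n → 2 • e`, `x n ∈ P`, `w n - x n ∈ P`, `dist (x n) e > r`;
a subsequence of `x n` converges to `x ∈ P` with `2 • e - x ∈ P` (closed) and `dist x e ≥ r > 0`, but
`e = (1/2) • x + (1/2) • (2 • e - x)` is extreme, so `x = e`. (Or: the set `{(w, x) | x ∈ P, w - x ∈ P, r ≤ dist x e}` is compact, its
projection to `w` is compact and does not contain `2 • e`, so its complement is a neighbourhood.)
`antipodal`: `L = interior P`. The open convex sets `(fun l => x + l) '' L` and `(fun l => e + l) '' L` are disjoint (`h`). By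
`geometric_hahn_banach_open_open` there are `f`, `u` with `f (x + l) < u < f (e + l')` for all `l, l' ∈ L`. Same `l` on both
sides: `f x < f e`. By continuity and `P ⊆ closure L`: `f x + f p ≤ u ≤ f e + f q` for all `p, q ∈ P`. With `p = e`: `f x ≤ f q`;
with `q = x`: `f p ≤ f e`.
-/

set_option autoImplicit false

open Set Filter Topology MeasureTheory
open scoped Classical Pointwise

namespace Pool.Agent.Lib.MP_5e7226_co.WL

variable {E : Type*} [NormedAddCommGroup E] [NormedSpace ℝ E]

theorem add_mem_double {P : Set E} (hconv : Convex ℝ P) {x w : E} (hx : x ∈ P)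
    (hw : w - x ∈ interior P) : w ∈ interior ((2 : ℝ) • P) := by
  have h1 : IsOpen ((fun y => x + y) '' interior P) :=
    (Homeomorph.addLeft x).isOpenMap _ isOpen_interior
  have h2 : (fun y => x + y) '' interior P ⊆ (2 : ℝ) • P := by
    rintro _ ⟨y, hy, rfl⟩
    refine ⟨(1 / 2 : ℝ) • x + (1 / 2 : ℝ) • y, hconv hx (interior_subset hy) (by norm_num)
      (by norm_num) (by norm_num), ?_⟩
    change (2 : ℝ) • ((1 / 2 : ℝ) • x + (1 / 2 : ℝ) • y) = x + y
    rw [smul_add, smul_smul, smul_smul]
    norm_num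
  exact interior_maximal h2 h1 ⟨w - x, hw, by simp⟩

theorem vol_double [FiniteDimensional ℝ E] [MeasurableSpace E] [BorelSpace E] (μ : Measure E)
    [μ.IsAddHaarMeasure] (P : Set E) :
    μ (interior ((2 : ℝ) • P)) = ENNReal.ofReal (2 ^ Module.finrank ℝ E) * μ (interior P) := by
  rw [interior_smul₀ (two_ne_zero), Measure.addHaar_smul, abs_of_pos (by positivity)]

theorem two_smul_mem_closure {P : Set E} (hconv : Convex ℝ P) (hint : (interior P).Nonempty)
    {x : E} (hx : x ∈ P) : (2 : ℝ) • x ∈ closure (interior ((2 : ℝ) • P)) := by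
  have h1 : (interior ((2 : ℝ) • P)).Nonempty := by
    rw [interior_smul₀ (two_ne_zero)]
    exact hint.smul_set
  rw [Convex.closure_interior_eq_closure_of_nonempty_interior (hconv.smul 2) h1]
  exact subset_closure (Set.smul_mem_smul_set hx)

theorem localize {P : Set E} (hP : IsCompact P) {e : E} (he : e ∈ P.extremePoints ℝ) {r : ℝ}
    (hr : 0 < r) : ∃ δ > 0, ∀ w ∈ Metric.ball ((2 : ℝ) • e) δ, ∀ x ∈ P, w - x ∈ P →
      x ∈ Metric.closedBall e r := by
  have hC : IsCompact (P ∩ {x | r ≤ dist x e}) :=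
    hP.inter_right (isClosed_le continuous_const (continuous_id.dist continuous_const))
  have hCP : IsClosed ((P ∩ {x | r ≤ dist x e}) + P) := (hC.add hP).isClosed
  have hne : (2 : ℝ) • e ∈ ((P ∩ {x | r ≤ dist x e}) + P)ᶜ := by
    rintro ⟨x, ⟨hxP, hxr⟩, p, hp, hxp⟩
    have h1 := he.2 hxP hp ⟨1 / 2, 1 / 2, by norm_num, by norm_num, by norm_num, by
      rw [← smul_add]
      change x + p = (2 : ℝ) • e at hxp
      rw [hxp, smul_smul]
      norm_num⟩
    have h2 : x = e := h1
    rw [h2] at hxr
    change r ≤ dist e e at hxr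
    rw [dist_self] at hxr
    linarith
  obtain ⟨δ, hδ, hb⟩ := Metric.isOpen_iff.1 hCP.isOpen_compl _ hne
  refine ⟨δ, hδ, fun w hw x hx hwx => ?_⟩
  by_contra hcon
  rw [Metric.mem_closedBall, not_le] at hcon
  refine hb hw ⟨x, ⟨hx, hcon.le⟩, w - x, hwx, ?_⟩
  change x + (w - x) = w
  abel

theorem antipodal {P : Set E} (hconv : Convex ℝ P) (hint : (interior P).Nonempty) {x e : E}
    (hx : x ∈ P) (he : e ∈ P) (h : ∀ w, ¬(w - x ∈ interior P ∧ w - e ∈ interior P)) :
    ∃ f : E →L[ℝ] ℝ, f x < f e ∧ ∀ p ∈ P, f x ≤ f p ∧ f p ≤ f e := by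
  have hA : IsOpen ((fun y => x + y) '' interior P) :=
    (Homeomorph.addLeft x).isOpenMap _ isOpen_interior
  have hB : IsOpen ((fun y => e + y) '' interior P) :=
    (Homeomorph.addLeft e).isOpenMap _ isOpen_interior
  have hdis : Disjoint ((fun y => x + y) '' interior P) ((fun y => e + y) '' interior P) := by
    rw [Set.disjoint_left]
    rintro _ ⟨l, hl, rfl⟩ ⟨l', hl', he'⟩
    change e + l' = x + l at he'
    refine h (x + l) ⟨?_, ?_⟩
    · rwa [add_sub_cancel_left]
    · rwa [← he', add_sub_cancel_left]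
  obtain ⟨f, u, h1, h2⟩ := geometric_hahn_banach_open_open (hconv.interior.translate x) hA
    (hconv.interior.translate e) hB hdis
  have h1' : ∀ l ∈ interior P, f x + f l < u := by
    intro l hl
    have := h1 (x + l) ⟨l, hl, rfl⟩
    rwa [map_add] at this
  have h2' : ∀ l ∈ interior P, u < f e + f l := by
    intro l hl
    have := h2 (e + l) ⟨l, hl, rfl⟩
    rwa [map_add] at this
  have hcl : P ⊆ closure (interior P) := by
    rw [Convex.closure_interior_eq_closure_of_nonempty_interior hconv hint]
    exact subset_closure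
  have h3 : ∀ p ∈ P, f x + f p ≤ u := by
    intro p hp
    have hc : IsClosed {y | f x + f y ≤ u} :=
      isClosed_le (continuous_const.add f.continuous) continuous_const
    exact closure_minimal (fun l hl => (h1' l hl).le) hc (hcl hp)
  have h4 : ∀ q ∈ P, u ≤ f e + f q := by
    intro q hq
    have hc : IsClosed {y | u ≤ f e + f y} :=
      isClosed_le continuous_const (continuous_const.add f.continuous)
    exact closure_minimal (fun l hl => (h2' l hl).le) hc (hcl hq)
  obtain ⟨l, hl⟩ := hint
  refine ⟨f, ?_, fun p hp => ⟨?_, ?_⟩⟩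
  · have h5 := h1' l hl
    have h6 := h2' l hl
    linarith
  · have h5 := h3 e he
    have h6 := h4 p hp
    linarith
  · have h5 := h3 p hp
    have h6 := h4 x hx
    linarith

end Pool.Agent.Lib.MP_5e7226_co.WL
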