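import Pool.Agent.Lib.MP_5e7226_co.WL.C0

/-!
# Task C1: extreme points have mass exactly `c`

PROOFS. `exists_good`: the open set `O ∩ interior (2 • P)` is nonempty, so it has positive measure; a property which holds
almost everywhere on `interior (2 • P)` holds at some point of it.
`mass_ge`: let `r > 0`, `δ` from `localize`. The ball of radius `δ` about `2 • e` meets `interior (2 • P)` (`two_smul_mem_closure`), so
`exists_good` gives `w` in it with `ρ {x | w - x ∈ interior P} = ofReal c`; up to the null set `Pᶜ` this set is contained in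
`closedBall e r`, so `ofReal c ≤ ρ (closedBall e r)`. Let `r → 0`: `ρ {e} ≥ ofReal c` (`Set.measure_eq_iInf_isOpen` for the outer
regular measure `ρ`, or `tendsto_measure_iInter`).
`mass_le`: for `l ∈ interior P` put `t = x - l`; then `x - t ∈ interior P`.
-/

set_option autoImplicit false

open Set Filter Topology MeasureTheory
open scoped Classical Pointwise

namespace Pool.Agent.Lib.MP_5e7226_co.WL

variable {E : Type*} [NormedAddCommGroup E] [NormedSpace ℝ E] [FiniteDimensional ℝ E]
  [MeasurableSpace E] [BorelSpace E]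

theorem exists_good (μ : Measure E) [μ.IsAddHaarMeasure] (ρ : Measure E) {P : Set E} {c : ℝ}
    (hae : ∀ᵐ w ∂(μ.restrict (interior ((2 : ℝ) • P))),
      ρ {x | w - x ∈ interior P} = ENNReal.ofReal c)
    {O : Set E} (hO : IsOpen O) (hne : (O ∩ interior ((2 : ℝ) • P)).Nonempty) :
    ∃ w ∈ O, w ∈ interior ((2 : ℝ) • P) ∧ ρ {x | w - x ∈ interior P} = ENNReal.ofReal c := by
  by_contra hcon
  push Not at hcon
  have hpos : 0 < μ (O ∩ interior ((2 : ℝ) • P)) :=
    (hO.inter isOpen_interior).measure_pos μ hne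
  have h0 : (μ.restrict (interior ((2 : ℝ) • P)))
      {w | ¬ ρ {x | w - x ∈ interior P} = ENNReal.ofReal c} = 0 := ae_iff.1 hae
  have h1 : μ (O ∩ interior ((2 : ℝ) • P)) ≤ (μ.restrict (interior ((2 : ℝ) • P)))
      {w | ¬ ρ {x | w - x ∈ interior P} = ENNReal.ofReal c} := by
    refine le_trans ?_ (measure_mono (μ := μ.restrict (interior ((2 : ℝ) • P)))
      (s := O ∩ interior ((2 : ℝ) • P)) ?_)
    · rw [Measure.restrict_apply (hO.inter isOpen_interior).measurableSet, inter_assoc, inter_self]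
    · intro w hw
      exact hcon w hw.1 hw.2
  rw [h0] at h1
  exact absurd hpos (not_lt.2 h1)

theorem mass_le (ρ : Measure E) {P : Set E} (hint : (interior P).Nonempty) {c : ℝ}
    (hle : ∀ t : E, ρ {x | x - t ∈ interior P} ≤ ENNReal.ofReal c) (x : E) :
    ρ {x} ≤ ENNReal.ofReal c := by
  obtain ⟨l, hl⟩ := hint
  refine le_trans (measure_mono ?_) (hle (x - l))
  rintro y rfl
  change y - (y - l) ∈ interior P
  rwa [sub_sub_cancel]

theorem mass_ge (μ : Measure E) [μ.IsAddHaarMeasure] (ρ : Measure E) [IsProbabilityMeasure ρ]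
    {P : Set E} (hP : IsCompact P) (hconv : Convex ℝ P) (hint : (interior P).Nonempty)
    (hρP : ρ Pᶜ = 0) {c : ℝ}
    (hae : ∀ᵐ w ∂(μ.restrict (interior ((2 : ℝ) • P))),
      ρ {x | w - x ∈ interior P} = ENNReal.ofReal c)
    {e : E} (he : e ∈ P.extremePoints ℝ) : ENNReal.ofReal c ≤ ρ {e} := by
  have key : ∀ r > 0, ENNReal.ofReal c ≤ ρ (Metric.closedBall e r) := by
    intro r hr
    obtain ⟨δ, hδ, hloc⟩ := localize hP he hr
    have hcl := two_smul_mem_closure hconv hint he.1
    have hne : (Metric.ball ((2 : ℝ) • e) δ ∩ interior ((2 : ℝ) • P)).Nonempty :=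
      mem_closure_iff.1 hcl _ Metric.isOpen_ball (Metric.mem_ball_self hδ)
    obtain ⟨w, hw, -, hw2⟩ := exists_good μ ρ hae Metric.isOpen_ball hne
    rw [← hw2]
    have hsub : {x | w - x ∈ interior P} ⊆ Metric.closedBall e r ∪ Pᶜ := by
      intro x hx
      by_cases hxP : x ∈ P
      · exact Or.inl (hloc w hw x hxP (interior_subset hx))
      · exact Or.inr hxP
    calc ρ {x | w - x ∈ interior P} ≤ ρ (Metric.closedBall e r ∪ Pᶜ) := measure_mono hsub
      _ ≤ ρ (Metric.closedBall e r) + ρ Pᶜ := measure_union_le _ _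
      _ = ρ (Metric.closedBall e r) := by rw [hρP, add_zero]
  rw [Set.measure_eq_iInf_isOpen {e} ρ]
  refine le_iInf fun U => le_iInf fun hU => le_iInf fun hUo => ?_
  obtain ⟨r, hr, hrU⟩ := Metric.nhds_basis_closedBall.mem_iff.1
    (hUo.mem_nhds (hU (mem_singleton e)))
  exact (key r hr).trans (measure_mono hrU)

end Pool.Agent.Lib.MP_5e7226_co.WL
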