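import Pool.Agent.Lib.MP_5e7226_co.WL.C1

/-!
# Task C2: there are `1 / c` extreme points, pairwise antipodal

`X = P.extremePoints ℝ`. PROOFS.
`extreme_finite`: every finite subset `F` of `X` has `F.card * c ≤ ρ F ≤ 1` (`measure_biUnion_finset`, masses of the points),
so `X` is finite (an infinite set has finite subsets of every cardinality, `Set.Infinite.exists_subset_card_eq`).
`extreme_antipodal`: if `w - x`, `w - e ∈ interior P`... here with `t`: for `x ≠ e` extreme suppose `w - x ∈ interior P` and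
`w - e ∈ interior P`; `w ∈ interior (2 • P)` (`add_mem_double`); on a neighbourhood `O` of `w` both still hold; by `exists_good` there is
`w' ∈ O` with `ρ {y | w' - y ∈ interior P} = ofReal c`, but this set contains `x` and `e`, so its mass is `≥ 2 c > c`.
`extreme_count`: `X.ncard * c ≤ 1` as above. Suppose `<`. Then `ρ Xᶜ > 0`, also `ρ (P \ X) > 0`. There is `x ∈ P` such that
`ρ (N \ X) > 0` for every neighbourhood `N` of `x` (`IsCompact.measure_zero_of_nhdsWithin` for the measure `ρ.restrict Xᶜ`).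
CLAIM: for `e ∈ X` there is no `w₀` with `w₀ - x ∈ interior P ∧ w₀ - e ∈ interior P`. Otherwise by continuity there is `r > 0` with
`w - y ∈ interior P`, `w - e ∈ interior P` for all `w ∈ ball w₀ r`, `y ∈ ball x r`; `w₀ ∈ interior (2 • P)` by `add_mem_double`, so by
`exists_good` there is `w ∈ ball w₀ r` with `ρ {y | w - y ∈ interior P} = ofReal c`; this set contains `{e} ∪ (ball x r \ X)`, of mass
`≥ c + ρ (ball x r \ X) > c`: contradiction. By `antipodal` for every `e ∈ X` there is `f e` with `f e x < f e e`,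
`f e x ≤ f e p` for all `p ∈ P`. Let `g = ∑_{e ∈ X} f e`: `g x < g e` for every `e ∈ X` (the term `e` is strict, the others `≥`). `P` is the
convex hull of the finite set `X` (Krein-Milman `closure_convexHull_extremePoints` and `Set.Finite.isClosed_convexHull`), so
`g x < g p` for all `p ∈ P` (`convexHull_min` with an open half-space), also for `p = x`: contradiction.
-/

set_option autoImplicit false

open Set Filter Topology MeasureTheory
open scoped Classical Pointwise

namespace Pool.Agent.Lib.MP_5e7226_co.WL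

variable {E : Type*} [NormedAddCommGroup E] [NormedSpace ℝ E] [FiniteDimensional ℝ E]
  [MeasurableSpace E] [BorelSpace E]

theorem extreme_finite (ρ : Measure E) [IsProbabilityMeasure ρ] {P : Set E} {c : ℝ} (hc : 0 < c)
    (hmass : ∀ e ∈ P.extremePoints ℝ, ENNReal.ofReal c ≤ ρ {e}) :
    (P.extremePoints ℝ).Finite ∧ ((P.extremePoints ℝ).ncard : ℝ) * c ≤ 1 := by
  have key : ∀ F : Finset E, (F : Set E) ⊆ P.extremePoints ℝ → (F.card : ℝ) * c ≤ 1 := by
    intro F hF
    have h1 : (F.card : ENNReal) * ENNReal.ofReal c ≤ 1 := by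
      calc (F.card : ENNReal) * ENNReal.ofReal c = ∑ x ∈ F, ENNReal.ofReal c := by
            rw [Finset.sum_const, nsmul_eq_mul]
        _ ≤ ∑ x ∈ F, ρ {x} := Finset.sum_le_sum fun x hx => hmass x (hF (Finset.mem_coe.2 hx))
        _ = ρ F := sum_measure_singleton
        _ ≤ 1 := prob_le_one
    rw [← ENNReal.ofReal_natCast, ← ENNReal.ofReal_mul (Nat.cast_nonneg _)] at h1
    exact ENNReal.ofReal_le_one.1 h1
  have hfin : (P.extremePoints ℝ).Finite := by
    by_contra hinf
    obtain ⟨n, hn⟩ := exists_nat_gt (1 / c)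
    obtain ⟨t, ht, htn⟩ := Set.Infinite.exists_subset_card_eq hinf n
    have h1 := key t ht
    rw [htn] at h1
    rw [div_lt_iff₀ hc] at hn
    linarith
  refine ⟨hfin, ?_⟩
  rw [Set.ncard_eq_toFinset_card _ hfin]
  exact key _ (by rw [hfin.coe_toFinset])

private lemma C2_aux (ρ : Measure E) {A S : Set E} {c : ℝ} {e : E} (he : e ∈ A) (hS : S ⊆ A)
    (heS : e ∉ S) (hmass : ENNReal.ofReal c ≤ ρ {e}) (hA : ρ A = ENNReal.ofReal c) :
    ρ S = 0 := by
  have h1 : ρ ({e} ∪ S) = ρ {e} + ρ S :=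
    measure_union' (disjoint_singleton_left.2 heS) (measurableSet_singleton e)
  have h2 : ρ ({e} ∪ S) ≤ ENNReal.ofReal c := by
    rw [← hA]
    exact measure_mono (union_subset (singleton_subset_iff.2 he) hS)
  have h3 : ENNReal.ofReal c + ρ S ≤ ENNReal.ofReal c + 0 := by
    rw [add_zero]
    refine le_trans ?_ h2
    rw [h1]
    gcongr
  have h4 := (ENNReal.add_le_add_iff_left ENNReal.ofReal_ne_top).1 h3
  exact le_antisymm h4 zero_le

theorem extreme_antipodal (μ : Measure E) [μ.IsAddHaarMeasure] (ρ : Measure E)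
    [IsProbabilityMeasure ρ] {P : Set E} (hconv : Convex ℝ P) {c : ℝ} (hc : 0 < c)
    (hmass : ∀ e ∈ P.extremePoints ℝ, ENNReal.ofReal c ≤ ρ {e})
    (hae : ∀ᵐ w ∂(μ.restrict (interior ((2 : ℝ) • P))),
      ρ {x | w - x ∈ interior P} = ENNReal.ofReal c)
    {x e : E} (hx : x ∈ P.extremePoints ℝ) (he : e ∈ P.extremePoints ℝ) (hne : x ≠ e) (w : E) :
    ¬(w - x ∈ interior P ∧ w - e ∈ interior P) := by
  rintro ⟨h1, h2⟩
  have hO : IsOpen {w : E | w - x ∈ interior P ∧ w - e ∈ interior P} :=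
    (isOpen_interior.preimage (continuous_id.sub continuous_const)).inter
      (isOpen_interior.preimage (continuous_id.sub continuous_const))
  obtain ⟨w', ⟨hx', he'⟩, -, hw'⟩ := exists_good μ ρ hae hO
    ⟨w, ⟨h1, h2⟩, add_mem_double hconv hx.1 h1⟩
  have h3 := C2_aux ρ (A := {x | w' - x ∈ interior P}) (S := {x}) he'
    (singleton_subset_iff.2 hx') (fun h => hne (Set.mem_singleton_iff.1 h).symm) (hmass e he) hw'
  have h4 := hmass x hx
  rw [h3] at h4
  exact absurd (ENNReal.ofReal_pos.2 hc) (not_lt.2 h4)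

theorem extreme_count (μ : Measure E) [μ.IsAddHaarMeasure] (ρ : Measure E)
    [IsProbabilityMeasure ρ] {P : Set E} (hP : IsCompact P) (hconv : Convex ℝ P)
    (hint : (interior P).Nonempty) (hρP : ρ Pᶜ = 0) {c : ℝ} (hc : 0 < c)
    (hmass : ∀ e ∈ P.extremePoints ℝ, ENNReal.ofReal c ≤ ρ {e})
    (hmass' : ∀ x : E, ρ {x} ≤ ENNReal.ofReal c)
    (hae : ∀ᵐ w ∂(μ.restrict (interior ((2 : ℝ) • P))),
      ρ {x | w - x ∈ interior P} = ENNReal.ofReal c) :
    ((P.extremePoints ℝ).ncard : ℝ) * c = 1 := by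
  obtain ⟨hfin, hle⟩ := extreme_finite ρ hc hmass
  refine le_antisymm hle (not_lt.1 fun hlt => ?_)
  have hρX : ρ (P.extremePoints ℝ) < 1 := by
    have h1 : ρ (P.extremePoints ℝ) ≤
        ENNReal.ofReal (((P.extremePoints ℝ).ncard : ℝ) * c) := by
      rw [ENNReal.ofReal_mul (Nat.cast_nonneg _), ENNReal.ofReal_natCast,
        Set.ncard_eq_toFinset_card _ hfin]
      calc ρ (P.extremePoints ℝ) = ρ (hfin.toFinset : Set E) := by rw [hfin.coe_toFinset]
        _ = ∑ x ∈ hfin.toFinset, ρ {x} := sum_measure_singleton.symm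
        _ ≤ ∑ x ∈ hfin.toFinset, ENNReal.ofReal c := Finset.sum_le_sum fun x _ => hmass' x
        _ = (hfin.toFinset.card : ENNReal) * ENNReal.ofReal c := by
            rw [Finset.sum_const, nsmul_eq_mul]
    exact lt_of_le_of_lt h1 (ENNReal.ofReal_lt_one.2 hlt)
  have hs0 : ρ (P \ P.extremePoints ℝ) ≠ 0 := by
    intro h0
    have h1 : (1 : ENNReal) ≤ ρ (P.extremePoints ℝ) := by
      calc (1 : ENNReal) = ρ univ := measure_univ.symm
        _ ≤ ρ (P.extremePoints ℝ ∪ (P \ P.extremePoints ℝ) ∪ Pᶜ) := by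
            apply measure_mono
            intro y _
            by_cases h1 : y ∈ P
            · by_cases h2 : y ∈ P.extremePoints ℝ
              · exact Or.inl (Or.inl h2)
              · exact Or.inl (Or.inr ⟨h1, h2⟩)
            · exact Or.inr h1
        _ ≤ ρ (P.extremePoints ℝ ∪ (P \ P.extremePoints ℝ)) + ρ Pᶜ := measure_union_le _ _
        _ ≤ ρ (P.extremePoints ℝ) + ρ (P \ P.extremePoints ℝ) + ρ Pᶜ := by
            gcongr
            exact measure_union_le _ _
        _ = ρ (P.extremePoints ℝ) := by rw [h0, hρP, add_zero, add_zero]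
    exact absurd hρX (not_lt.2 h1)
  obtain ⟨x, hxs, hx⟩ := exists_mem_forall_mem_nhdsWithin_pos_measure hs0
  have claim : ∀ e ∈ P.extremePoints ℝ, ∀ w : E,
      ¬(w - x ∈ interior P ∧ w - e ∈ interior P) := by
    rintro e he w ⟨h1, h2⟩
    have hO : IsOpen {q : E × E | q.1 - q.2 ∈ interior P ∧ q.1 - e ∈ interior P} :=
      (isOpen_interior.preimage (continuous_fst.sub continuous_snd)).inter
        (isOpen_interior.preimage (continuous_fst.sub continuous_const))
    obtain ⟨O, U, hOo, hUo, hwO, hxU, hOU⟩ := isOpen_prod_iff.1 hO w x ⟨h1, h2⟩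
    obtain ⟨w', hw'O, -, hw'⟩ := exists_good μ ρ hae hOo
      ⟨w, hwO, add_mem_double hconv hxs.1 h1⟩
    have he' : e ∈ {y | w' - y ∈ interior P} :=
      (hOU (Set.mk_mem_prod hw'O hxU)).2
    have h3 := C2_aux ρ (A := {y | w' - y ∈ interior P})
      (S := U ∩ (P \ P.extremePoints ℝ)) he'
      (fun y hy => (hOU (Set.mk_mem_prod hw'O hy.1)).1) (fun h => h.2.2 he) (hmass e he) hw'
    have h4 := hx (U ∩ (P \ P.extremePoints ℝ))
      (mem_nhdsWithin.2 ⟨U, hUo, hxU, fun _ h => h⟩)
    exact absurd h3 h4.ne'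
  have hf : ∀ e : E, ∃ f : E →L[ℝ] ℝ, e ∈ P.extremePoints ℝ →
      (f x < f e ∧ ∀ p ∈ P, f x ≤ f p) := by
    intro e
    by_cases he : e ∈ P.extremePoints ℝ
    · obtain ⟨f, h1, h2⟩ := antipodal hconv hint hxs.1 he.1 (claim e he)
      exact ⟨f, fun _ => ⟨h1, fun p hp => (h2 p hp).1⟩⟩
    · exact ⟨0, fun h => absurd h he⟩
  choose f hf using hf
  have hg : ∀ e ∈ P.extremePoints ℝ,
      (∑ e ∈ hfin.toFinset, f e) x < (∑ e ∈ hfin.toFinset, f e) e := by
    intro e he
    rw [sum_apply, sum_apply]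
    exact Finset.sum_lt_sum (fun i hi => (hf i (hfin.mem_toFinset.1 hi)).2 e he.1)
      ⟨e, hfin.mem_toFinset.2 he, (hf e he).1⟩
  have hPX : convexHull ℝ (P.extremePoints ℝ) = P := by
    have h1 : IsClosed (convexHull ℝ (P.extremePoints ℝ)) := Set.Finite.isClosed_convexHull ℝ hfin
    rw [← h1.closure_eq]
    exact closure_convexHull_extremePoints hP hconv
  have hsub : convexHull ℝ (P.extremePoints ℝ) ⊆
      {p | (∑ e ∈ hfin.toFinset, f e) x < (∑ e ∈ hfin.toFinset, f e) p} :=
    convexHull_min hg (convex_halfSpace_gt (∑ e ∈ hfin.toFinset, f e).toLinearMap.isLinear _)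
  rw [hPX] at hsub
  exact lt_irrefl ((∑ e ∈ hfin.toFinset, f e) x) (hsub hxs.1)

end Pool.Agent.Lib.MP_5e7226_co.WL
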