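import Pool.Agent.Lib.MP_5e7226_co.Basic
import Pool.Agent.Lib.MP_5e7226_co.TwoLevel

/-!
# MP_5e7226_co, campaign WL: the weighted (fractional) form of Q1

`L` denotes the interior of a convex body `P`.
-/

set_option autoImplicit false

open Set Filter Topology MeasureTheory
open scoped InnerProductSpace Pointwise Classical

namespace Pool.Agent.Lib.MP_5e7226_co.WL

/-- Finitely many functionals with nonnegative weights of total weight at most `s` such that for
every face of `K` the functionals which are positive on the face have total weight at least `1`. -/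
def WSep {V : Type*} [NormedAddCommGroup V] [NormedSpace ℝ V] (K : Set V) (s : ℝ) : Prop :=
  ∃ (N : ℕ) (w : Fin N → (V →L[ℝ] ℝ)) (c : Fin N → ℝ), (∀ i, 0 ≤ c i) ∧ ∑ i, c i ≤ s ∧
    ∀ f : V →L[ℝ] ℝ, f ≠ 0 → 1 ≤ ∑ i, (if ∀ x ∈ face K f, 0 < w i x then c i else 0)

/-- Finitely many translates `t i + int P` with nonnegative weights of total weight at most `s`
which cover every point of `P` with total weight at least `1`. -/
def WCov {V : Type*} [NormedAddCommGroup V] [NormedSpace ℝ V] (P : Set V) (s : ℝ) : Prop :=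
  ∃ (N : ℕ) (t : Fin N → V) (c : Fin N → ℝ), (∀ i, 0 ≤ c i) ∧ ∑ i, c i ≤ s ∧
    ∀ x ∈ P, 1 ≤ ∑ i, (if x - t i ∈ interior P then c i else 0)

end Pool.Agent.Lib.MP_5e7226_co.WL
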