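import Pool.Agent.Lib.MP_5e7226_co.WL.Defs

/-!
# Task E1: from weighted coverings of the polar to weighted separations

PROOF. Let `t i`, `c i` be the covering of `pol K`. The functionals are `w i = ⟪t i, ·⟫` (`innerSL ℝ (t i)` or
`InnerProductSpace.toDual ℝ E (t i)`). Let `f ≠ 0` be a functional, `f = ⟪u, ·⟫`, `u ≠ 0`, `M = max_K f > 0` (attained;
positive because `0 ∈ interior K`), `g = M⁻¹ • u ∈ pol K`. If `g - t i ∈ interior (pol K)` then `⟪g - t i, x⟫ < 1` for all `x ∈ K`
(`(1 + ε) • (g - t i) ∈ pol K` for some `ε > 0`, so `⟪g - t i, x⟫ ≤ 1 / (1 + ε)`), and for `x ∈ face K f` we have `⟪g, x⟫ = 1`, so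
`⟪t i, x⟫ > 0`. So every term of the sum for `g` is at most the corresponding term of the sum for `f`.
-/

set_option autoImplicit false

open Set Filter Topology MeasureTheory
open scoped InnerProductSpace Classical

namespace Pool.Agent.Lib.MP_5e7226_co.WL

variable {E : Type*} [NormedAddCommGroup E] [InnerProductSpace ℝ E] [FiniteDimensional ℝ E]

theorem wsep_of_wcov {K : Set E} (hK : IsCompact K) (h0 : (0 : E) ∈ interior K) {s : ℝ}
    (h : WCov (pol K) s) : WSep K s := by
  have hint : ∀ y ∈ interior (pol K), ∀ x ∈ K, ⟪y, x⟫_ℝ < 1 := by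
    intro y hy x hx
    have hcont : Continuous fun ε : ℝ => (1 + ε) • y := by fun_prop
    have h1 : ∀ᶠ ε : ℝ in 𝓝 0, (1 + ε) • y ∈ interior (pol K) := by
      have h2 := hcont.tendsto 0
      simp only [add_zero, one_smul] at h2
      exact h2.eventually (isOpen_interior.mem_nhds hy)
    obtain ⟨ε, hε, hε0⟩ := ((h1.filter_mono nhdsWithin_le_nhds).and
      (self_mem_nhdsWithin (s := Ioi (0 : ℝ)))).exists
    have hε0' : 0 < ε := hε0
    have h3 := interior_subset hε x hx
    rw [real_inner_smul_left] at h3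
    by_contra hcon
    push Not at hcon
    nlinarith
  obtain ⟨N, t, c, hc0, hcs, hcov⟩ := h
  refine ⟨N, fun i => innerSL ℝ (t i), c, hc0, hcs, fun f hf => ?_⟩
  set u : E := (InnerProductSpace.toDual ℝ E).symm f with hu
  have hfu : ∀ x, f x = ⟪u, x⟫_ℝ := fun x => (InnerProductSpace.toDual_symm_apply).symm
  have hu0 : u ≠ 0 := by
    intro h1
    apply hf
    ext x
    rw [hfu, h1, inner_zero_left]
    rfl
  have hun : 0 < ‖u‖ := norm_pos_iff.2 hu0
  have h0K : (0 : E) ∈ K := interior_subset h0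
  obtain ⟨x0, hx0, hmax⟩ := hK.exists_isMaxOn ⟨0, h0K⟩ f.continuous.continuousOn
  have hmax' : ∀ x ∈ K, f x ≤ f x0 := fun x hx => hmax hx
  obtain ⟨δ, hδ, hball⟩ := Metric.mem_nhds_iff.1 (mem_interior_iff_mem_nhds.1 h0)
  have hy : (δ / (2 * ‖u‖)) • u ∈ K := by
    apply hball
    rw [mem_ball_zero_iff, norm_smul, Real.norm_of_nonneg (by positivity)]
    have : δ / (2 * ‖u‖) * ‖u‖ = δ / 2 := by field_simp
    rw [this]
    linarith
  have hM : 0 < f x0 := by
    refine lt_of_lt_of_le ?_ (hmax' _ hy)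
    rw [map_smul, hfu, real_inner_self_eq_norm_sq, smul_eq_mul]
    positivity
  have hg : (f x0)⁻¹ • u ∈ pol K := by
    intro x hx
    rw [real_inner_smul_left, ← hfu, inv_mul_le_iff₀ hM, mul_one]
    exact hmax' x hx
  refine le_trans (hcov _ hg) (Finset.sum_le_sum fun i _ => ?_)
  by_cases hi : (f x0)⁻¹ • u - t i ∈ interior (pol K)
  · have hpos : ∀ x ∈ face K f, 0 < (innerSL ℝ (t i)) x := by
      intro x hx
      have h1 := hint _ hi x hx.1
      rw [inner_sub_left, real_inner_smul_left, ← hfu] at h1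
      have h2 : f x = f x0 := le_antisymm (hmax' x hx.1) (hx.2 x0 hx0)
      rw [h2, inv_mul_cancel₀ hM.ne'] at h1
      change 0 < ⟪t i, x⟫_ℝ
      linarith
    rw [if_pos hi, if_pos hpos]
  · rw [if_neg hi]
    split_ifs
    · exact hc0 i
    · exact le_rfl

end Pool.Agent.Lib.MP_5e7226_co.WL
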