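import Pool.Agent.Lib.MP_5e7226_co.WL.Defs

/-!
# Task E2: cross-bodies are separated by `2 ^ d` functionals (all weights `1`)

PROOF. `v` is a basis (`basisOfLinearIndependentOfCardEqFinrank'`), `φ k` the coordinate functionals (continuous:
`LinearMap.toContinuousLinearMap`). For `σ : Fin d → Bool` let `w σ = ∑ k, (if σ k then 1 else -1) • φ k` (all `2 ^ d` weights are `1`;
`Fin (2 ^ d) ≃ (Fin d → Bool)`; first prove the statement for an arbitrary finite index type, then transport along an equivalence).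
Given `f ≠ 0` take `σ k = decide (0 ≤ f (v k))`. Let `x ∈ face K f`, `M = f x > 0` (`f` is positive somewhere on `K` because
`0 ∈ interior K`; this is `pos_of_face` in Reduction.lean, also easy directly). Write `x` as a convex combination of the points
`v k` (weights `p k`) and `-(t k • v k)` (weights `q k`) (`mem_convexHull_iff_exists_fintype` or `Finset.mem_convexHull'`, or avoid
it: the set of `x = ∑ k, (p k - q k * t k) • v k` with `p, q ≥ 0`, `∑ (p k + q k) = 1` is convex and contains the vertices). As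
`f ≤ M` on the vertices and `f x = M`: `p k > 0` implies `f (v k) = M > 0`, so `σ k = true`; `q k > 0` implies `-(t k) f (v k) = M > 0`,
so `σ k = false`. Hence `w σ x = ∑_{σ k} p k + ∑_{not σ k} q k * t k > 0` (some `p k` or `q k` is positive).
(The files Reduction.lean, Cross.lean on main contain this in another form: `exists_compat`, `tau_pos`.)
-/

set_option autoImplicit false

open Set Filter Topology MeasureTheory
open scoped InnerProductSpace Classical

namespace Pool.Agent.Lib.MP_5e7226_co.WL

variable {E : Type*} [NormedAddCommGroup E] [NormedSpace ℝ E] [FiniteDimensional ℝ E]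

omit [FiniteDimensional ℝ E] in
private theorem E2_hull {d : ℕ} (v : Fin d → E) (t : Fin d → ℝ) {x : E}
    (hx : x ∈ convexHull ℝ (⋃ k, {v k, -(t k • v k)})) :
    ∃ p q : Fin d → ℝ, (∀ k, 0 ≤ p k) ∧ (∀ k, 0 ≤ q k) ∧ ∑ k, (p k + q k) = 1 ∧
      x = ∑ k, (p k - q k * t k) • v k := by
  let C : Set E := {x | ∃ p q : Fin d → ℝ, (∀ k, 0 ≤ p k) ∧ (∀ k, 0 ≤ q k) ∧
    ∑ k, (p k + q k) = 1 ∧ x = ∑ k, (p k - q k * t k) • v k}
  have hC : Convex ℝ C := by
    rintro x ⟨p, q, hp, hq, hs, rfl⟩ y ⟨p', q', hp', hq', hs', rfl⟩ a b ha hb hab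
    refine ⟨fun k => a * p k + b * p' k, fun k => a * q k + b * q' k,
      fun k => add_nonneg (mul_nonneg ha (hp k)) (mul_nonneg hb (hp' k)),
      fun k => add_nonneg (mul_nonneg ha (hq k)) (mul_nonneg hb (hq' k)), ?_, ?_⟩
    · have : ∑ k, (a * p k + b * p' k + (a * q k + b * q' k)) =
          a * ∑ k, (p k + q k) + b * ∑ k, (p' k + q' k) := by
        rw [Finset.mul_sum, Finset.mul_sum, ← Finset.sum_add_distrib]
        refine Finset.sum_congr rfl fun k _ => by ring
      rw [this, hs, hs']
      linarith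
    · rw [Finset.smul_sum, Finset.smul_sum, ← Finset.sum_add_distrib]
      refine Finset.sum_congr rfl fun k _ => ?_
      rw [smul_smul, smul_smul, ← add_smul]
      congr 1
      ring
  have hsub : (⋃ k, {v k, -(t k • v k)}) ⊆ C := by
    intro y hy
    rw [mem_iUnion] at hy
    obtain ⟨k, hk⟩ := hy
    rcases hk with hk | hk
    · refine ⟨Pi.single k 1, 0, ?_, fun _ => le_rfl, ?_, ?_⟩
      · intro j
        by_cases hj : j = k
        · subst hj; simp
        · simp [hj]
      · simp [Finset.sum_pi_single']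
      · rw [hk, Finset.sum_eq_single k]
        · simp
        · intro j _ hj
          simp [hj]
        · simp
    · rw [mem_singleton_iff] at hk
      refine ⟨0, Pi.single k 1, fun _ => le_rfl, ?_, ?_, ?_⟩
      · intro j
        by_cases hj : j = k
        · subst hj; simp
        · simp [hj]
      · simp [Finset.sum_pi_single']
      · rw [hk, Finset.sum_eq_single k]
        · simp
        · intro j _ hj
          simp [hj]
        · simp
  exact convexHull_min hsub hC hx

private theorem E2_main {d : ℕ} (hd : Module.finrank ℝ E = d) (v : Fin d → E)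
    (t : Fin d → ℝ) (hv : LinearIndependent ℝ v) (ht : ∀ k, 0 < t k)
    (h0 : (0 : E) ∈ interior (convexHull ℝ (⋃ k, {v k, -(t k • v k)}))) :
    ∃ w : (Fin d → Bool) → (E →L[ℝ] ℝ), ∀ f : E →L[ℝ] ℝ, f ≠ 0 →
      ∃ σ, ∀ x ∈ face (convexHull ℝ (⋃ k, {v k, -(t k • v k)})) f, 0 < w σ x := by
  have hcard : Fintype.card (Fin d) = Module.finrank ℝ E := by simp [hd]
  rcases Nat.eq_zero_or_pos d with hd0 | hd0
  · subst hd0
    refine ⟨fun _ => 0, fun f hf => absurd ?_ hf⟩
    have : Subsingleton E := Module.finrank_zero_iff.1 hd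
    ext x
    rw [Subsingleton.elim x 0]
    simp
  have : Nonempty (Fin d) := ⟨⟨0, hd0⟩⟩
  set b := basisOfLinearIndependentOfCardEqFinrank hv hcard with hb
  have hbv : ∀ k, b k = v k := fun k => by
    rw [hb, coe_basisOfLinearIndependentOfCardEqFinrank]
  let φ : Fin d → (E →L[ℝ] ℝ) := fun k => LinearMap.toContinuousLinearMap (b.coord k)
  have hφ : ∀ j k, φ j (v k) = if k = j then 1 else 0 := by
    intro j k
    change b.coord j (v k) = _
    rw [← hbv k, Module.Basis.coord_apply, Module.Basis.repr_self, Finsupp.single_apply]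
  refine ⟨fun σ => ∑ k, (if σ k then (1 : ℝ) else -1) • φ k, fun f hf => ?_⟩
  refine ⟨fun k => decide (0 ≤ f (v k)), fun x hx => ?_⟩
  set K := convexHull ℝ (⋃ k, {v k, -(t k • v k)}) with hK
  obtain ⟨hxK, hmax⟩ := hx
  have hvK : ∀ k, v k ∈ K := fun k =>
    subset_convexHull _ _ (mem_iUnion.2 ⟨k, Or.inl rfl⟩)
  have htK : ∀ k, -(t k • v k) ∈ K := fun k =>
    subset_convexHull _ _ (mem_iUnion.2 ⟨k, Or.inr rfl⟩)
  have hM : 0 < f x := by
    by_contra hcon
    push Not at hcon
    apply hf
    have hall : ∀ y : E, f y ≤ 0 := by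
      intro y
      have hK0 : K ∈ 𝓝 (0 : E) := mem_interior_iff_mem_nhds.1 h0
      have hc : Filter.Tendsto (fun r : ℝ => r • y) (𝓝 0) (𝓝 0) := by
        have : Continuous (fun r : ℝ => r • y) := continuous_id.smul continuous_const
        simpa using this.tendsto 0
      have hev : ∀ᶠ r : ℝ in 𝓝[>] 0, r • y ∈ K := (hc.eventually hK0).filter_mono nhdsWithin_le_nhds
      obtain ⟨r, hr, hrp⟩ := (hev.and self_mem_nhdsWithin).exists
      have h1 := hmax _ hr
      rw [map_smul, smul_eq_mul] at h1
      have hrp' : 0 < r := hrp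
      by_contra hy
      push Not at hy
      have := mul_pos hrp' hy
      linarith
    ext y
    have h1 := hall y
    have h2 := hall (-y)
    rw [map_neg] at h2
    simp only [FunLike.coe_zero, Pi.zero_apply]
    linarith
  obtain ⟨p, q, hp, hq, hs, hxe⟩ := E2_hull v t hxK
  have hfx : f x = ∑ k, (p k * f (v k) + q k * (-(t k * f (v k)))) := by
    rw [hxe, map_sum]
    refine Finset.sum_congr rfl fun k _ => ?_
    rw [map_smul, smul_eq_mul]
    ring
  have hMs : f x = ∑ k, (p k * f x + q k * f x) := by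
    have : ∑ k, (p k * f x + q k * f x) = (∑ k, (p k + q k)) * f x := by
      rw [Finset.sum_mul]
      refine Finset.sum_congr rfl fun k _ => by ring
    rw [this, hs, one_mul]
  have hb1 : ∀ k, f (v k) ≤ f x := fun k => hmax _ (hvK k)
  have hb2 : ∀ k, -(t k * f (v k)) ≤ f x := fun k => by
    have := hmax _ (htK k)
    rwa [map_neg, map_smul, smul_eq_mul] at this
  have hzero : ∑ k, (p k * (f x - f (v k)) + q k * (f x - -(t k * f (v k)))) = 0 := by
    have : ∑ k, (p k * (f x - f (v k)) + q k * (f x - -(t k * f (v k)))) =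
        ∑ k, (p k * f x + q k * f x) - ∑ k, (p k * f (v k) + q k * (-(t k * f (v k)))) := by
      rw [← Finset.sum_sub_distrib]
      refine Finset.sum_congr rfl fun k _ => by ring
    rw [this, ← hMs, ← hfx, sub_self]
  have hnn1 : ∀ k, 0 ≤ p k * (f x - f (v k)) := fun k =>
    mul_nonneg (hp k) (sub_nonneg.2 (hb1 k))
  have hnn2 : ∀ k, 0 ≤ q k * (f x - -(t k * f (v k))) := fun k =>
    mul_nonneg (hq k) (sub_nonneg.2 (hb2 k))
  have hz := (Finset.sum_eq_zero_iff_of_nonneg
    (fun k _ => add_nonneg (hnn1 k) (hnn2 k))).1 hzero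
  have hz1 : ∀ k, p k * (f x - f (v k)) = 0 := fun k => by
    have := hz k (Finset.mem_univ k); have := hnn1 k; have := hnn2 k; linarith
  have hz2 : ∀ k, q k * (f x - -(t k * f (v k))) = 0 := fun k => by
    have := hz k (Finset.mem_univ k); have := hnn1 k; have := hnn2 k; linarith
  have hφx : ∀ j, φ j x = p j - q j * t j := by
    intro j
    rw [hxe, map_sum, Finset.sum_eq_single j]
    · rw [map_smul, hφ]; simp
    · intro k _ hk
      rw [map_smul, hφ]; simp [hk]
    · simp
  have hw : (∑ k, (if (decide (0 ≤ f (v k))) then (1 : ℝ) else -1) • φ k) x =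
      ∑ k, (if 0 ≤ f (v k) then (1 : ℝ) else -1) * (p k - q k * t k) := by
    simp only [FunLike.coe_sum, Finset.sum_apply, FunLike.coe_smul, Pi.smul_apply, smul_eq_mul,
      hφx, decide_eq_true_eq]
  change 0 < (∑ k, (if (decide (0 ≤ f (v k))) = true then (1 : ℝ) else -1) • φ k) x
  rw [hw]
  have hterm : ∀ k, (0 ≤ (if 0 ≤ f (v k) then (1 : ℝ) else -1) * (p k - q k * t k)) ∧
      (0 < p k + q k → 0 < (if 0 ≤ f (v k) then (1 : ℝ) else -1) * (p k - q k * t k)) := by
    intro k
    by_cases hk : 0 ≤ f (v k)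
    · have hqk : q k = 0 := by
        rcases mul_eq_zero.1 (hz2 k) with h | h
        · exact h
        · have := mul_nonneg (ht k).le hk
          linarith
      rw [if_pos hk, hqk]
      refine ⟨by simpa using hp k, fun h => by simpa [hqk] using h⟩
    · have hpk : p k = 0 := by
        rcases mul_eq_zero.1 (hz1 k) with h | h
        · exact h
        · linarith
      rw [if_neg hk, hpk]
      have h1 := mul_nonneg (hq k) (ht k).le
      refine ⟨by linarith, fun h => ?_⟩
      have h2 : 0 < q k := by simpa [hpk] using h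
      have := mul_pos h2 (ht k)
      linarith
  have hex : ∃ k, 0 < p k + q k := by
    by_contra hcon
    push Not at hcon
    have : ∑ k, (p k + q k) ≤ 0 := Finset.sum_nonpos fun k _ => hcon k
    linarith
  obtain ⟨k, hk⟩ := hex
  exact Finset.sum_pos' (fun j _ => (hterm j).1) ⟨k, Finset.mem_univ k, (hterm k).2 hk⟩

theorem wsep_cross {d : ℕ} (hd : Module.finrank ℝ E = d) (hd0 : 0 < d) (v : Fin d → E)
    (t : Fin d → ℝ) (hv : LinearIndependent ℝ v) (ht : ∀ k, 0 < t k)
    (h0 : (0 : E) ∈ interior (convexHull ℝ (⋃ k, {v k, -(t k • v k)}))) :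
    WSep (convexHull ℝ (⋃ k, {v k, -(t k • v k)})) (2 ^ d) := by
  obtain ⟨w, hw⟩ := E2_main hd v t hv ht h0
  let e := Fintype.equivFin (Fin d → Bool)
  refine ⟨Fintype.card (Fin d → Bool), fun i => w (e.symm i), fun _ => 1, fun _ => zero_le_one,
    ?_, fun f hf => ?_⟩
  · simp
  · obtain ⟨σ, hσ⟩ := hw f hf
    refine le_trans ?_ (Finset.single_le_sum (f := fun i => if ∀ x ∈ face
      (convexHull ℝ (⋃ k, {v k, -(t k • v k)})) f, 0 < w (e.symm i) x then (1 : ℝ) else 0)
      (fun i _ => ?_) (Finset.mem_univ (e σ)))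
    · have : ∀ x ∈ face (convexHull ℝ (⋃ k, {v k, -(t k • v k)})) f,
          0 < w (e.symm (e σ)) x := by
        simpa using hσ
      simp only [if_pos this]
      exact le_rfl
    · split_ifs <;> norm_num

end Pool.Agent.Lib.MP_5e7226_co.WL
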