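import Pool.Agent.Lib.MP_5e7226_co.WL.Defs

/-!
# Task E3: from functionals to hyperplanes (uniformity by compactness)

The statement of the final theorem uses the definitions `faceV`, `StrictlySeparates`, `WeightedSep` below.

PROOF. Let `K' = (fun x => x - o) '' K`, and `w i`, `c i` the family given by `WSep K' s`. CLAIM: there is `ε > 0` such that for every
`f ≠ 0`: `1 ≤ ∑ i, if (∀ x ∈ face K' f, ε < w i x) then c i else 0`. This is `exists_eps` (Basic.lean) with that property `P ε f`:
homogeneity by `face_smul`; local part: for `f₀ ≠ 0` let `I = {i | ∀ x ∈ face K' f₀, 0 < w i x}`; for each `i ∈ I` by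
`eventually_face` (as in the proof of `Sep.uniform`) for all `(ε, f)` near `(0, f₀)`: `∀ x ∈ face K' f, ε < w i x`; take the
intersection over the finite set `I`: the sum for `(ε, f)` is at least `∑_{i ∈ I} c i ≥ 1`.
Now as in `sep_to_hyperplanes`: hyperplanes `⟪w' i, x⟫ = ⟪w' i, o⟫ + ε` where `w i = ⟪w' i, ·⟫`; they separate (first alternative of
`StrictlySeparates`), because `x ∈ faceV K u` iff `x - o ∈ face K' ⟪u, ·⟫`.
-/

set_option autoImplicit false

open Set Filter Topology MeasureTheory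
open scoped InnerProductSpace Classical

namespace Pool.Agent.Lib.MP_5e7226_co.WL

/-- the face of `K` with outer normal `u` -/
def faceV {d : ℕ} (K : Set (EuclideanSpace ℝ (Fin d))) (u : EuclideanSpace ℝ (Fin d)) :
    Set (EuclideanSpace ℝ (Fin d)) := {x | x ∈ K ∧ ∀ y ∈ K, ⟪u, y⟫_ℝ ≤ ⟪u, x⟫_ℝ}

/-- The hyperplane `{x | ⟪w, x⟫ = b}` strictly separates the set `F` from the point `o`. -/
def StrictlySeparates {d : ℕ} (w : EuclideanSpace ℝ (Fin d)) (b : ℝ)
    (F : Set (EuclideanSpace ℝ (Fin d))) (o : EuclideanSpace ℝ (Fin d)) : Prop :=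
  (⟪w, o⟫_ℝ < b ∧ ∀ x ∈ F, b < ⟪w, x⟫_ℝ) ∨ (b < ⟪w, o⟫_ℝ ∧ ∀ x ∈ F, ⟪w, x⟫_ℝ < b)

/-- There are finitely many hyperplanes with nonnegative weights of total weight at most `s` such
that for every face `F` of `K` the hyperplanes which strictly separate `F` from `o` have total
weight at least `1`. -/
def WeightedSep {d : ℕ} (K : Set (EuclideanSpace ℝ (Fin d))) (o : EuclideanSpace ℝ (Fin d))
    (s : ℝ) : Prop :=
  ∃ (N : ℕ) (w : Fin N → EuclideanSpace ℝ (Fin d)) (b c : Fin N → ℝ), (∀ i, 0 ≤ c i) ∧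
    ∑ i, c i ≤ s ∧ ∀ u : EuclideanSpace ℝ (Fin d), u ≠ 0 →
      1 ≤ ∑ i, (if StrictlySeparates (w i) (b i) (faceV K u) o then c i else 0)

theorem weightedSep_of_wsep {d : ℕ} {K : Set (EuclideanSpace ℝ (Fin d))} (hK : IsCompact K)
    (o : EuclideanSpace ℝ (Fin d)) {s : ℝ} (h : WSep ((fun x => x - o) '' K) s) :
    WeightedSep K o s := by
  have hK' : IsCompact ((fun x => x - o) '' K) := hK.image (continuous_id.sub continuous_const)
  obtain ⟨N, w, c, hc, hs, hw⟩ := h
  have key : ∃ ε > 0, ∀ f : EuclideanSpace ℝ (Fin d) →L[ℝ] ℝ, f ≠ 0 →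
      1 ≤ ∑ i, (if ∀ x ∈ face ((fun x => x - o) '' K) f, ε < w i x then c i else 0) := by
    apply exists_eps (P := fun ε f =>
      1 ≤ ∑ i, (if ∀ x ∈ face ((fun x => x - o) '' K) f, ε < w i x then c i else 0))
    · intro ε f r hr hf
      simpa only [face_smul _ f hr] using hf
    · intro f₀ hf₀
      have h1 := hw f₀ hf₀
      have h2 : ∀ i, ∀ᶠ z : ℝ × (EuclideanSpace ℝ (Fin d) →L[ℝ] ℝ) in 𝓝 (0, f₀),
          (∀ x ∈ face ((fun x => x - o) '' K) f₀, 0 < w i x) →
            ∀ x ∈ face ((fun x => x - o) '' K) z.2, z.1 < w i x := by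
        intro i
        by_cases hi : ∀ x ∈ face ((fun x => x - o) '' K) f₀, 0 < w i x
        · have := eventually_face hK' (0 : ℝ) f₀ (fun ε _ x => ε < w i x) (by
            intro x hx
            have hlt : (0 : ℝ) < w i x := hi x hx
            have hc1 : Continuous (fun z : (ℝ × (EuclideanSpace ℝ (Fin d) →L[ℝ] ℝ)) ×
                EuclideanSpace ℝ (Fin d) => z.1.1) :=
              continuous_fst.comp continuous_fst
            have hc2 : Continuous (fun z : (ℝ × (EuclideanSpace ℝ (Fin d) →L[ℝ] ℝ)) ×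
                EuclideanSpace ℝ (Fin d) => w i z.2) :=
              (w i).continuous.comp continuous_snd
            have hev : ∀ᶠ z : (ℝ × (EuclideanSpace ℝ (Fin d) →L[ℝ] ℝ)) ×
                EuclideanSpace ℝ (Fin d) in 𝓝 (((0 : ℝ), f₀), x), z.1.1 < w i z.2 :=
              (hc1.continuousAt (x := (((0 : ℝ), f₀), x))).eventually_lt
                (hc2.continuousAt (x := (((0 : ℝ), f₀), x))) hlt
            filter_upwards [hev] with z hz _ using hz)
          filter_upwards [this] with z hz _ using hz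
        · exact Filter.Eventually.of_forall fun z hz => absurd hz hi
      filter_upwards [Filter.eventually_all.mpr h2] with z hz _
      refine h1.trans (Finset.sum_le_sum fun i _ => ?_)
      by_cases hi : ∀ x ∈ face ((fun x => x - o) '' K) f₀, 0 < w i x
      · rw [if_pos hi, if_pos (hz i hi)]
      · rw [if_neg hi]
        split_ifs
        · exact hc i
        · exact le_rfl
  obtain ⟨ε, hε, hw'⟩ := key
  refine ⟨N, fun i => (InnerProductSpace.toDual ℝ _).symm (w i),
    fun i => ⟪(InnerProductSpace.toDual ℝ (EuclideanSpace ℝ (Fin d))).symm (w i), o⟫_ℝ + ε, c, hc,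
    hs, ?_⟩
  intro u hu
  have hu' : (InnerProductSpace.toDual ℝ (EuclideanSpace ℝ (Fin d)) u) ≠ 0 := by
    simpa using hu
  refine (hw' _ hu').trans (Finset.sum_le_sum fun i _ => ?_)
  by_cases hi : ∀ x ∈ face ((fun x => x - o) '' K)
      (InnerProductSpace.toDual ℝ (EuclideanSpace ℝ (Fin d)) u), ε < w i x
  · rw [if_pos hi, if_pos]
    refine Or.inl ⟨by linarith, fun x hx => ?_⟩
    have hmem : x - o ∈ face ((fun x => x - o) '' K)
        (InnerProductSpace.toDual ℝ (EuclideanSpace ℝ (Fin d)) u) := by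
      refine ⟨⟨x, hx.1, rfl⟩, ?_⟩
      rintro _ ⟨y, hy, rfl⟩
      simp only [InnerProductSpace.toDual_apply_apply, inner_sub_right]
      have := hx.2 y hy
      linarith
    have h1 := hi _ hmem
    have h2 : (w i) (x - o) =
        ⟪(InnerProductSpace.toDual ℝ (EuclideanSpace ℝ (Fin d))).symm (w i), x - o⟫_ℝ := by
      rw [InnerProductSpace.toDual_symm_apply]
    rw [h2, inner_sub_right] at h1
    linarith
  · rw [if_neg hi]
    split_ifs
    · exact hc i
    · exact le_rfl

end Pool.Agent.Lib.MP_5e7226_co.WL
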