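import Pool.Agent.Lib.MP_5e7226_co.WL.E3

/-!
# Task E4: cross-bodies need total weight `2 ^ d`

PROOF. For `σ : Fin d → Bool` let `u σ` be the vector with `⟪u σ, v k⟫ = 1` if `σ k` and `⟪u σ, v k⟫ = -1 / t k` otherwise (`v` is a basis:
`basisOfLinearIndependentOfCardEqFinrank'`, the functional `Basis.constr`, Riesz `InnerProductSpace.toDual`; or
`exists` by linear independence). `u σ ≠ 0` as `0 < d`. On `K`: `⟪u σ, x - o⟫ ≤ 1` (true on the points `o + v k`, `o - t k • v k`; convex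
hull). So the face `F σ = faceV K (u σ)` contains `o + v k` if `σ k`, and `o - t k • v k` otherwise. A hyperplane `(w, b)` strictly
separates at most one `F σ` from `o`: let `σ ≠ τ`, `σ k = true`, `τ k = false` (or the other way round). In the first case
(`⟪w, o⟫ < b`): `⟪w, o + v k⟫ > b > ⟪w, o⟫` and `⟪w, o - t k • v k⟫ > b > ⟪w, o⟫` give `⟪w, v k⟫ > 0` and `⟪w, v k⟫ < 0`; the second case
is symmetric, and both faces are separated in the same case since `⟪w, o⟫ < b` and `b < ⟪w, o⟫` exclude each other. Hence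
`2 ^ d ≤ ∑_σ ∑_i (if separates (w i) (b i) (F σ) then c i else 0) = ∑_i ∑_σ ... ≤ ∑_i c i ≤ s`
(`Finset.sum_comm`; the inner sum over `σ` has at most one nonzero term: `Finset.sum_ite` / card of the filter `≤ 1`).
-/

set_option autoImplicit false

open Set Filter Topology MeasureTheory
open scoped InnerProductSpace Classical

namespace Pool.Agent.Lib.MP_5e7226_co.WL

theorem cross_lower {d : ℕ} (hd : 0 < d) (o : EuclideanSpace ℝ (Fin d))
    (v : Fin d → EuclideanSpace ℝ (Fin d)) (t : Fin d → ℝ) (hv : LinearIndependent ℝ v)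
    (ht : ∀ k, 0 < t k) {s : ℝ}
    (h : WeightedSep (convexHull ℝ (⋃ k, {o + v k, o - t k • v k})) o s) : (2 : ℝ) ^ d ≤ s := by
  have : Nonempty (Fin d) := ⟨⟨0, hd⟩⟩
  have hcard : Fintype.card (Fin d) = Module.finrank ℝ (EuclideanSpace ℝ (Fin d)) := by simp
  let B := basisOfLinearIndependentOfCardEqFinrank hv hcard
  have hB : ∀ k, B k = v k := fun k => by
    simp only [B, coe_basisOfLinearIndependentOfCardEqFinrank]
  set K : Set (EuclideanSpace ℝ (Fin d)) := convexHull ℝ (⋃ k, {o + v k, o - t k • v k}) with hK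
  -- the normals
  have hu : ∀ σ : Fin d → Bool, ∃ u : EuclideanSpace ℝ (Fin d), ∀ k,
      ⟪u, v k⟫_ℝ = if σ k then (1 : ℝ) else -1 / t k := by
    intro σ
    refine ⟨(InnerProductSpace.toDual ℝ (EuclideanSpace ℝ (Fin d))).symm
      (LinearMap.toContinuousLinearMap
        (B.constr ℝ (fun k => if σ k then (1 : ℝ) else -1 / t k))), fun k => ?_⟩
    rw [InnerProductSpace.toDual_symm_apply, LinearMap.coe_toContinuousLinearMap', ← hB k,
      Module.Basis.constr_basis]
  choose u hu using hu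
  have hpt : ∀ σ k, (σ k = true → ⟪u σ, o + v k⟫_ℝ = ⟪u σ, o⟫_ℝ + 1) ∧
      (σ k = false → ⟪u σ, o - t k • v k⟫_ℝ = ⟪u σ, o⟫_ℝ + 1) := by
    intro σ k
    have htk := ht k
    constructor
    · intro h1
      rw [inner_add_right, hu, if_pos h1]
    · intro h1
      rw [inner_sub_right, inner_smul_right, hu, if_neg (by simp [h1])]
      field_simp
      ring
  have hle : ∀ σ, ∀ x ∈ K, ⟪u σ, x⟫_ℝ ≤ ⟪u σ, o⟫_ℝ + 1 := by
    intro σ x hx
    have hconv : Convex ℝ {x : EuclideanSpace ℝ (Fin d) | ⟪u σ, x⟫_ℝ ≤ ⟪u σ, o⟫_ℝ + 1} :=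
      convex_halfSpace_le (f := fun x => ⟪u σ, x⟫_ℝ)
        ⟨fun x y => inner_add_right _ _ _, fun c x => by
          simp [inner_smul_right]⟩ _
    have hsub : (⋃ k, {o + v k, o - t k • v k}) ⊆
        {x : EuclideanSpace ℝ (Fin d) | ⟪u σ, x⟫_ℝ ≤ ⟪u σ, o⟫_ℝ + 1} := by
      intro y hy
      rw [mem_iUnion] at hy
      obtain ⟨k, hk⟩ := hy
      have htk := ht k
      have h0 : (0 : ℝ) < 1 / t k := by positivity
      rcases hk with hk | hk
      · subst hk
        change ⟪u σ, o + v k⟫_ℝ ≤ ⟪u σ, o⟫_ℝ + 1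
        rw [inner_add_right, hu]
        by_cases h1 : σ k = true
        · rw [if_pos h1]
        · rw [if_neg h1, neg_div]; linarith
      · rw [mem_singleton_iff] at hk
        subst hk
        change ⟪u σ, o - t k • v k⟫_ℝ ≤ ⟪u σ, o⟫_ℝ + 1
        by_cases h1 : σ k = true
        · rw [inner_sub_right, inner_smul_right, hu, if_pos h1]; linarith
        · exact ((hpt σ k).2 (by simpa using h1)).le
    exact convexHull_min hsub hconv hx
  have hmem1 : ∀ k, o + v k ∈ K := fun k =>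
    subset_convexHull ℝ _ (mem_iUnion.2 ⟨k, Or.inl rfl⟩)
  have hmem2 : ∀ k, o - t k • v k ∈ K := fun k =>
    subset_convexHull ℝ _ (mem_iUnion.2 ⟨k, Or.inr rfl⟩)
  have hF1 : ∀ σ k, σ k = true → o + v k ∈ faceV K (u σ) := fun σ k h1 =>
    ⟨hmem1 k, fun y hy => (hle σ y hy).trans ((hpt σ k).1 h1).ge⟩
  have hF2 : ∀ σ k, σ k = false → o - t k • v k ∈ faceV K (u σ) := fun σ k h1 =>
    ⟨hmem2 k, fun y hy => (hle σ y hy).trans ((hpt σ k).2 h1).ge⟩
  have hu0 : ∀ σ, u σ ≠ 0 := by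
    intro σ h0
    have h1 := hu σ ⟨0, hd⟩
    rw [h0, inner_zero_left] at h1
    have h2 : (0 : ℝ) < 1 / t ⟨0, hd⟩ := by have := ht ⟨0, hd⟩; positivity
    by_cases h3 : σ ⟨0, hd⟩ = true
    · rw [if_pos h3] at h1; exact zero_ne_one h1
    · rw [if_neg h3, neg_div] at h1; linarith
  have hkey : ∀ (w : EuclideanSpace ℝ (Fin d)) (b : ℝ) (σ τ : Fin d → Bool),
      StrictlySeparates w b (faceV K (u σ)) o → StrictlySeparates w b (faceV K (u τ)) o →
      ∀ k, σ k = true → τ k = false → False := by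
    intro w b σ τ h1 h2 k hσ hτ
    have htk := ht k
    rcases h1 with ⟨h1, h1'⟩ | ⟨h1, h1'⟩ <;> rcases h2 with ⟨h2, h2'⟩ | ⟨h2, h2'⟩
    · have h3 := h1' _ (hF1 σ k hσ)
      have h4 := h2' _ (hF2 τ k hτ)
      rw [inner_add_right] at h3
      rw [inner_sub_right, inner_smul_right] at h4
      have h5 : 0 < ⟪w, v k⟫_ℝ := by linarith
      have h6 : 0 < t k * ⟪w, v k⟫_ℝ := mul_pos htk h5
      linarith
    · linarith
    · linarith
    · have h3 := h1' _ (hF1 σ k hσ)
      have h4 := h2' _ (hF2 τ k hτ)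
      rw [inner_add_right] at h3
      rw [inner_sub_right, inner_smul_right] at h4
      have h5 : ⟪w, v k⟫_ℝ < 0 := by linarith
      have h6 : t k * ⟪w, v k⟫_ℝ < 0 := mul_neg_of_pos_of_neg htk h5
      linarith
  have huniq : ∀ (w : EuclideanSpace ℝ (Fin d)) (b : ℝ) (σ τ : Fin d → Bool),
      StrictlySeparates w b (faceV K (u σ)) o → StrictlySeparates w b (faceV K (u τ)) o →
      σ = τ := by
    intro w b σ τ h1 h2
    funext k
    cases hσ : σ k <;> cases hτ : τ k
    · rfl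
    · exact (hkey w b τ σ h2 h1 k hτ hσ).elim
    · exact (hkey w b σ τ h1 h2 k hσ hτ).elim
    · rfl
  obtain ⟨N, w, b, c, hc, hcs, hw⟩ := h
  have h1 : (2 : ℝ) ^ d = ∑ _σ : Fin d → Bool, (1 : ℝ) := by
    simp
  calc (2 : ℝ) ^ d = ∑ _σ : Fin d → Bool, (1 : ℝ) := h1
    _ ≤ ∑ σ : Fin d → Bool, ∑ i,
        (if StrictlySeparates (w i) (b i) (faceV K (u σ)) o then c i else 0) :=
        Finset.sum_le_sum fun σ _ => hw (u σ) (hu0 σ)
    _ = ∑ i, ∑ σ : Fin d → Bool,
        (if StrictlySeparates (w i) (b i) (faceV K (u σ)) o then c i else 0) := Finset.sum_comm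
    _ ≤ ∑ i, c i := by
        apply Finset.sum_le_sum
        intro i _
        rw [← Finset.sum_filter, Finset.sum_const, nsmul_eq_mul]
        have h2 : (Finset.univ.filter fun σ : Fin d → Bool =>
            StrictlySeparates (w i) (b i) (faceV K (u σ)) o).card ≤ 1 := by
          rw [Finset.card_le_one]
          intro σ hσ τ hτ
          rw [Finset.mem_filter] at hσ hτ
          exact huniq (w i) (b i) σ τ hσ.2 hτ.2
        have h3 : ((Finset.univ.filter fun σ : Fin d → Bool =>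
            StrictlySeparates (w i) (b i) (faceV K (u σ)) o).card : ℝ) ≤ 1 := by
          exact_mod_cast h2
        calc _ ≤ 1 * c i := mul_le_mul_of_nonneg_right h3 (hc i)
          _ = c i := one_mul _
    _ ≤ s := hcs

end Pool.Agent.Lib.MP_5e7226_co.WL
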