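import Pool.Agent.Lib.MP_5e7226_co.WL.A2
import Pool.Agent.Lib.MP_5e7226_co.WL.B2
import Pool.Agent.Lib.MP_5e7226_co.WL.C2
import Pool.Agent.Lib.MP_5e7226_co.WL.D

/-!
# Task F: cross-body or covering of total weight less than `2 ^ d`

PROOF. `P = pol K`: compact (`pol_compact h0`), convex (`pol_convex`), `0 ∈ interior P` (`pol_interior hK`). `c = (2 ^ d)⁻¹`. Suppose the
second alternative fails: `¬ ∃ s < 2 ^ d, WCov P s`. Index set `ι = E`, `U t = {x | x - t ∈ interior P}` (open, cover `P`: for `x`
take `t = x`, `0 ∈ interior P`). `hno` of `exists_measure`: given `w : E →₀ ℝ` covering `P`, if `c * w.sum < 1` then `s = w.sum < 2 ^ d` and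
`WCov P s` (`N = w.support.card`, enumerate the support by `Finset.equivFin`; `Finsupp.sum` is a sum over the support): contradiction.
So there is a probability `ρ` on `P` with `ρ {x | x - t ∈ interior P} ≤ ofReal c` for all `t`. Measurable space: `borel E`; `μ = addHaar`.
`ae_const` with `L = interior P`, `S = interior (2 • P)`: `hcS` from `vol_double` (`ofReal c * ofReal (2 ^ d) = 1`), finiteness from
compactness, `hsupp`: if `ρ {x | w - x ∈ L} ≠ 0` there is `x ∈ P` in it (as `ρ Pᶜ = 0`), so `w ∈ S` by `add_mem_double`. Then `mass_ge`,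
`mass_le`, `extreme_finite`, `extreme_count` (`ncard = 2 ^ d`), `extreme_antipodal` + `antipodal` + `opp_of_functional` give the hypotheses of
`cross_of_eq` (TwoLevel.lean) for `ι = P.extremePoints ℝ` (`Fintype` from finiteness, `u = Subtype.val`).
-/

set_option autoImplicit false

open Set Filter Topology MeasureTheory
open scoped InnerProductSpace Classical Pointwise

namespace Pool.Agent.Lib.MP_5e7226_co.WL

variable {E : Type*} [NormedAddCommGroup E] [InnerProductSpace ℝ E] [FiniteDimensional ℝ E]

theorem cross_or_wcov {d : ℕ} (hd : Module.finrank ℝ E = d) (hd0 : 0 < d) {K : Set E}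
    (hK : IsCompact K) (hconv : Convex ℝ K) (h0 : (0 : E) ∈ interior K) :
    (∃ (v : Fin d → E) (t : Fin d → ℝ), LinearIndependent ℝ v ∧ (∀ k, 0 < t k) ∧
      K = convexHull ℝ (⋃ k, {v k, -(t k • v k)})) ∨ ∃ s < (2 : ℝ) ^ d, WCov (pol K) s := by
  by_cases hW : ∃ s < (2 : ℝ) ^ d, WCov (pol K) s
  · exact Or.inr hW
  left
  have hPc : IsCompact (pol K) := pol_compact h0
  have hPconv : Convex ℝ (pol K) := pol_convex K
  have hP0 : (0 : E) ∈ interior (pol K) := pol_interior hK
  have hint : (interior (pol K)).Nonempty := ⟨0, hP0⟩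
  have hne : (pol K).Nonempty := ⟨0, interior_subset hP0⟩
  letI : MeasurableSpace E := borel E
  haveI : BorelSpace E := ⟨rfl⟩
  set c : ℝ := ((2 : ℝ) ^ d)⁻¹ with hcdef
  have h2d : (0 : ℝ) < (2 : ℝ) ^ d := by positivity
  have hc : 0 < c := by rw [hcdef]; positivity
  -- the probability measure
  have hopen : ∀ t : E, IsOpen {x : E | x - t ∈ interior (pol K)} := fun t =>
    isOpen_interior.preimage (continuous_id.sub continuous_const)
  have hcov : pol K ⊆ ⋃ t : E, {x : E | x - t ∈ interior (pol K)} := by
    intro x _
    refine mem_iUnion.mpr ⟨x, ?_⟩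
    show x - x ∈ interior (pol K)
    rw [sub_self]
    exact hP0
  obtain ⟨ρ, hρ1, hρP, hρU⟩ := exists_measure hPc hne
    (fun t : E => {x : E | x - t ∈ interior (pol K)}) hopen hcov hc (by
      intro w hw0 hwc
      by_contra hlt
      push Not at hlt
      apply hW
      refine ⟨w.sum fun _ a => a, ?_, ?_⟩
      · have h1 : c * (w.sum fun _ a => a) * 2 ^ d < 1 * 2 ^ d :=
          mul_lt_mul_of_pos_right hlt h2d
        have h2 : c * (w.sum fun _ a => a) * 2 ^ d = (w.sum fun _ a => a) := by
          rw [hcdef]
          field_simp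
        rw [h2, one_mul] at h1
        exact h1
      · refine ⟨w.support.card, fun i => (w.support.equivFin.symm i : E),
          fun i => w (w.support.equivFin.symm i : E), fun i => hw0 _, ?_, ?_⟩
        · have h1 : ∑ i, w (w.support.equivFin.symm i : E) = ∑ x : w.support, w (x : E) :=
            Equiv.sum_comp w.support.equivFin.symm (fun x : w.support => w (x : E))
          rw [h1]
          have h2 : ∑ x : w.support, w (x : E) = ∑ x ∈ w.support, w x :=
            Finset.sum_coe_sort w.support (fun x => w x)
          rw [h2]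
          exact le_refl _
        · intro x hx
          have h0' := hwc x hx
          have h1 : ∑ i, (if x - (w.support.equivFin.symm i : E) ∈ interior (pol K) then
              w (w.support.equivFin.symm i : E) else 0) =
              ∑ y : w.support, (if x - (y : E) ∈ interior (pol K) then w (y : E) else 0) :=
            Equiv.sum_comp w.support.equivFin.symm
              (fun y : w.support => if x - (y : E) ∈ interior (pol K) then w (y : E) else 0)
          rw [h1]
          have h2 : ∑ y : w.support, (if x - (y : E) ∈ interior (pol K) then w (y : E) else 0) =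
              ∑ y ∈ w.support, (if x - y ∈ interior (pol K) then w y else 0) :=
            Finset.sum_coe_sort w.support
              (fun y => if x - y ∈ interior (pol K) then w y else 0)
          rw [h2]
          exact h0')
  haveI := hρ1
  have hle : ∀ t : E, ρ {x | x - t ∈ interior (pol K)} ≤ ENNReal.ofReal c := hρU
  -- the function `H` is constant
  let μ : Measure E := Measure.addHaar
  have hLfin : μ (interior (pol K)) ≠ ⊤ :=
    ((measure_mono interior_subset).trans_lt hPc.measure_lt_top).ne
  have hvol := vol_double μ (pol K)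
  rw [hd] at hvol
  have hSfin : μ (interior ((2 : ℝ) • pol K)) ≠ ⊤ := by
    rw [hvol]
    exact ENNReal.mul_ne_top ENNReal.ofReal_ne_top hLfin
  have hcS : ENNReal.ofReal c * μ (interior ((2 : ℝ) • pol K)) = μ (interior (pol K)) := by
    rw [hvol, ← mul_assoc, ← ENNReal.ofReal_mul hc.le, hcdef, inv_mul_cancel₀ h2d.ne',
      ENNReal.ofReal_one, one_mul]
  have hsupp : ∀ w, w ∉ interior ((2 : ℝ) • pol K) →
      ρ {x | w - x ∈ interior (pol K)} = 0 := by
    intro w hw
    refine measure_mono_null ?_ hρP
    intro x hx hxP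
    exact hw (add_mem_double hPconv hxP hx)
  have hae := ae_const μ ρ (L := interior (pol K)) (S := interior ((2 : ℝ) • pol K))
    isOpen_interior.measurableSet isOpen_interior.measurableSet hSfin hLfin hc hcS hsupp hle
  have hge : ∀ e ∈ (pol K).extremePoints ℝ, ENNReal.ofReal c ≤ ρ {e} := fun e he =>
    mass_ge μ ρ hPc hPconv hint hρP hae he
  have hle' : ∀ x : E, ρ {x} ≤ ENNReal.ofReal c := fun x => mass_le ρ hint hle x
  obtain ⟨hfin, _⟩ := extreme_finite ρ hc hge
  have hcount := extreme_count μ ρ hPc hPconv hint hρP hc hge hle' hae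
  haveI : Fintype ((pol K).extremePoints ℝ) := hfin.fintype
  have hcard : Fintype.card ((pol K).extremePoints ℝ) = 2 ^ d := by
    have h1 : ((pol K).extremePoints ℝ).ncard = Fintype.card ((pol K).extremePoints ℝ) := by
      rw [← Nat.card_coe_set_eq, Nat.card_eq_fintype_card]
    rw [h1] at hcount
    have h2 : ((Fintype.card ((pol K).extremePoints ℝ) : ℕ) : ℝ) = 2 ^ d := by
      rw [hcdef] at hcount
      field_simp at hcount
      exact hcount
    exact_mod_cast h2
  refine cross_of_eq hK hconv h0 hd0 hd (fun i : (pol K).extremePoints ℝ => (i : E))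
    (fun i => i.2.1) ?_ hcard
  intro i j hij
  have hne' : (i : E) ≠ (j : E) := fun h => hij (Subtype.ext h)
  have hanti := extreme_antipodal μ ρ hPconv hc hge hae j.2 i.2 hne'.symm
  obtain ⟨f, hf1, hf2⟩ := antipodal hPconv hint j.2.1 i.2.1 hanti
  exact opp_of_functional hK hconv h0 f hf1 hf2

end Pool.Agent.Lib.MP_5e7226_co.WL
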