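import Pool.Agent.Lib.MP_5e7226_co.WL.F
import Pool.Agent.Lib.MP_5e7226_co.WL.E1
import Pool.Agent.Lib.MP_5e7226_co.WL.E2
import Pool.Agent.Lib.MP_5e7226_co.WL.E4

/-!
# Task G: assembly

PROOF. `K' = (fun x => x - o) '' K`: compact, convex, `0 ∈ interior K'`. `cross_or_wcov` for `K'`:
* `K' = convexHull (⋃ {v k, -(t k • v k)})`: then `K = convexHull (⋃ {o + v k, o - t k • v k})` (image of the convex hull under `x ↦ x + o`:
  `AffineMap.image_convexHull` or `convexHull_add`/`convexHull_vadd`-type lemmas), `wsep_cross` and `weightedSep_of_wsep` give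
  `WeightedSep K o (2 ^ d)`.
* `WCov (pol K') s`, `s < 2 ^ d`: `wsep_of_wcov`, `weightedSep_of_wsep` give `WeightedSep K o s`, hence also with `2 ^ d`.
Second part: if `K` is a cross-body, `cross_lower` shows `2 ^ d ≤ s` for all `s` with `WeightedSep K o s`; if it is not, the second case
above must occur (in the first case `K` would be a cross-body).
-/

set_option autoImplicit false

open Set Filter Topology MeasureTheory
open scoped InnerProductSpace Classical Pointwise

namespace Pool.Agent.Lib.MP_5e7226_co.WL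

private theorem Final_image {d : ℕ} {K : Set (EuclideanSpace ℝ (Fin d))}
    (o : EuclideanSpace ℝ (Fin d)) (v : Fin d → EuclideanSpace ℝ (Fin d)) (t : Fin d → ℝ)
    (h : (fun x => x - o) '' K = convexHull ℝ (⋃ k, {v k, -(t k • v k)})) :
    K = convexHull ℝ (⋃ k, {o + v k, o - t k • v k}) := by
  have h1 : K = (fun x => o + x) '' ((fun x => x - o) '' K) := by
    rw [Set.image_image]
    simp
  have h2 : (fun x => o + x) '' (convexHull ℝ (⋃ k, {v k, -(t k • v k)})) =
      convexHull ℝ ((fun x => o + x) '' (⋃ k, {v k, -(t k • v k)})) :=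
    (AffineEquiv.constVAdd ℝ (EuclideanSpace ℝ (Fin d)) o).toAffineMap.image_convexHull _
  have h3 : (fun x => o + x) '' (⋃ k, {v k, -(t k • v k)}) =
      ⋃ k, {o + v k, o - t k • v k} := by
    rw [Set.image_iUnion]
    refine Set.iUnion_congr fun k => ?_
    rw [Set.image_pair, sub_eq_add_neg]
  rw [h, h2, h3] at h1
  exact h1

private theorem Final_mono {d : ℕ} {K : Set (EuclideanSpace ℝ (Fin d))}
    {o : EuclideanSpace ℝ (Fin d)} {s s' : ℝ} (hs : s ≤ s') (h : WeightedSep K o s) :
    WeightedSep K o s' := by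
  obtain ⟨N, w, b, c, hc, hsum, hf⟩ := h
  exact ⟨N, w, b, c, hc, hsum.trans hs, hf⟩

theorem weighted_main {d : ℕ} (hd : 0 < d) (K : Set (EuclideanSpace ℝ (Fin d)))
    (hconv : Convex ℝ K) (hK : IsCompact K) (o : EuclideanSpace ℝ (Fin d))
    (ho : o ∈ interior K) :
    WeightedSep K o (2 ^ d) ∧
      ((¬ ∃ s : ℝ, s < 2 ^ d ∧ WeightedSep K o s) ↔
        ∃ (v : Fin d → EuclideanSpace ℝ (Fin d)) (t : Fin d → ℝ), LinearIndependent ℝ v ∧
          (∀ k, 0 < t k) ∧ K = convexHull ℝ (⋃ k, {o + v k, o - t k • v k})) := by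
  have hd' : Module.finrank ℝ (EuclideanSpace ℝ (Fin d)) = d := finrank_euclideanSpace_fin
  have hKc : IsCompact ((fun x => x - o) '' K) := hK.image (continuous_id.sub continuous_const)
  have hKv : Convex ℝ ((fun x => x - o) '' K) := by
    rintro _ ⟨x, hx, rfl⟩ _ ⟨y, hy, rfl⟩ a b ha hb hab
    refine ⟨a • x + b • y, hconv hx hy ha hb hab, ?_⟩
    have h1 : o = a • o + b • o := by rw [← add_smul, hab, one_smul]
    show a • x + b • y - o = a • (x - o) + b • (y - o)
    calc a • x + b • y - o = a • x + b • y - (a • o + b • o) := by rw [← h1]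
      _ = a • (x - o) + b • (y - o) := by
        rw [smul_sub, smul_sub]
        abel
  have h0 : (0 : EuclideanSpace ℝ (Fin d)) ∈ interior ((fun x => x - o) '' K) := by
    have h1 : (Homeomorph.subRight o) '' interior K = interior ((Homeomorph.subRight o) '' K) :=
      (Homeomorph.subRight o).image_interior K
    have h2 : (0 : EuclideanSpace ℝ (Fin d)) ∈ (Homeomorph.subRight o) '' interior K :=
      ⟨o, ho, by simp⟩
    rw [h1] at h2
    exact h2
  have hcase := cross_or_wcov hd' hd hKc hKv h0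
  have hright : ∀ s < (2 : ℝ) ^ d, WCov (pol ((fun x => x - o) '' K)) s → WeightedSep K o s :=
    fun s _ hW => weightedSep_of_wsep hK o (wsep_of_wcov hKc h0 hW)
  refine ⟨?_, ?_, ?_⟩
  · rcases hcase with ⟨v, t, hv, ht, hKe⟩ | ⟨s, hs, hW⟩
    · apply weightedSep_of_wsep hK o
      rw [hKe] at h0 ⊢
      exact wsep_cross hd' hd v t hv ht h0
    · exact Final_mono hs.le (hright s hs hW)
  · intro hno
    rcases hcase with ⟨v, t, hv, ht, hKe⟩ | ⟨s, hs, hW⟩
    · exact ⟨v, t, hv, ht, Final_image o v t hKe⟩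
    · exact absurd ⟨s, hs, hright s hs hW⟩ hno
  · rintro ⟨v, t, hv, ht, rfl⟩ ⟨s, hs, hW⟩
    exact absurd (cross_lower hd o v t hv ht hW) (not_le.mpr hs)

end Pool.Agent.Lib.MP_5e7226_co.WL
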